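import Mathlib

/-!
Cubic bipartite graphs with five or six distinct eigenvalues (MP_5e604b_co): definitions.
-/

namespace R29.CB

open Finset

universe u

variable {V : Type u} [Fintype V] [DecidableEq V]

/-- number of common neighbours of `x` and `y` -/
def lam (G : SimpleGraph V) [DecidableRel G.Adj] (x y : V) : ℕ :=
  (G.neighborFinset x ∩ G.neighborFinset y).card

/-- number of walks of length 4 from `x` to `y` -/
def W4 (G : SimpleGraph V) [DecidableRel G.Adj] (x y : V) : ℕ :=
  ∑ a ∈ G.neighborFinset x, ∑ b ∈ G.neighborFinset y, lam G a b

/-- the set of eigenvalues of `G`, with explicit eigenvectors -/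
def evSet (G : SimpleGraph V) [DecidableRel G.Adj] : Set ℝ :=
  {t | ∃ f : V → ℝ, f ≠ 0 ∧ ∀ x, ∑ y ∈ G.neighborFinset x, f y = t * f x}

/-- `G` is a connected cubic graph and `col` is a proper 2-colouring -/
structure CubBip (G : SimpleGraph V) [DecidableRel G.Adj] (col : V → Bool) : Prop where
  reg : ∀ x, (G.neighborFinset x).card = 3
  proper : ∀ x y, G.Adj x y → col x ≠ col y
  conn : G.Connected

/-- the equation `(A²)² = s A² - p I + c J` on the colour class `true` -/
def Eqn (G : SimpleGraph V) [DecidableRel G.Adj] (col : V → Bool) (s p c : ℝ) : Prop :=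
  ∀ x y, col x = true → col y = true →
    (W4 G x y : ℝ) = s * lam G x y - (if x = y then p else 0) + c

/-- the incidence graph of a list of `n` blocks on the points `0, ..., n-1` (as many points as
blocks): point `p` is adjacent to block number `b` iff `p` is a member of that block -/
def incG (L : List (List ℕ)) : SimpleGraph (Fin L.length ⊕ Fin L.length) where
  Adj a b := match a, b with
    | Sum.inl p, Sum.inr b => (p : ℕ) ∈ L[b]
    | Sum.inr b, Sum.inl p => (p : ℕ) ∈ L[b]
    | _, _ => False
  symm := by
    constructor
    intro a b h
    cases a <;> cases b <;> simp_all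
  loopless := by
    constructor
    intro a h
    cases a <;> simp at h

instance (L : List (List ℕ)) : DecidableRel (incG L).Adj := fun a b => by
  cases a <;> cases b <;> simp only [incG] <;> infer_instance

/-- number of blocks through both `x` and `y` -/
def incM (L : List (List ℕ)) (x y : Fin L.length) : ℕ :=
  (Finset.univ.filter (fun b : Fin L.length => (x : ℕ) ∈ L[b] ∧ (y : ℕ) ∈ L[b])).card

end R29.CB
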