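import Pool.Agent.R29.CB.Defs

/-!
Eigenvalue set of the incidence graph of an explicit list of blocks, from the equation
`M² = s M - p I + c J` for `M = N Nᵀ` (MP_5e604b_co, subtask 607).
-/

namespace R29.CB

open Finset

/-- the incidence matrix (points × blocks) -/
def evN (L : List (List ℕ)) : Matrix (Fin L.length) (Fin L.length) ℝ :=
  fun x b => if (x : ℕ) ∈ L[b] then 1 else 0

lemma evN_pos {L : List (List ℕ)} {x b : Fin L.length} (h : (x : ℕ) ∈ L[b]) : evN L x b = 1 :=
  if_pos h

lemma evN_neg {L : List (List ℕ)} {x b : Fin L.length} (h : (x : ℕ) ∉ L[b]) : evN L x b = 0 :=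
  if_neg h

lemma ev_sum_inl (L : List (List ℕ)) (f : Fin L.length ⊕ Fin L.length → ℝ) (x : Fin L.length) :
    ∑ y ∈ (incG L).neighborFinset (Sum.inl x), f y =
      (evN L).mulVec (fun b => f (Sum.inr b)) x := by
  rw [SimpleGraph.neighborFinset_eq_filter, Finset.sum_filter, Fintype.sum_sum_type]
  have h1 : ∀ a : Fin L.length, (if (incG L).Adj (Sum.inl x) (Sum.inl a) then f (Sum.inl a) else 0)
      = 0 := by
    intro a
    rw [if_neg]
    simp [incG]
  rw [Finset.sum_congr rfl (fun a _ => h1 a), Finset.sum_const_zero, zero_add]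
  unfold Matrix.mulVec dotProduct
  refine Finset.sum_congr rfl (fun b _ => ?_)
  show _ = evN L x b * f (Sum.inr b)
  by_cases h : (x : ℕ) ∈ L[b]
  · rw [evN_pos h, one_mul, if_pos]
    exact h
  · rw [evN_neg h, zero_mul, if_neg]
    exact h

lemma ev_sum_inr (L : List (List ℕ)) (f : Fin L.length ⊕ Fin L.length → ℝ) (b : Fin L.length) :
    ∑ y ∈ (incG L).neighborFinset (Sum.inr b), f y =
      (evN L).transpose.mulVec (fun x => f (Sum.inl x)) b := by
  rw [SimpleGraph.neighborFinset_eq_filter, Finset.sum_filter, Fintype.sum_sum_type]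
  have h1 : ∀ a : Fin L.length, (if (incG L).Adj (Sum.inr b) (Sum.inr a) then f (Sum.inr a) else 0)
      = 0 := by
    intro a
    rw [if_neg]
    simp [incG]
  rw [Finset.sum_congr rfl (fun a _ => h1 a), Finset.sum_const_zero, add_zero]
  unfold Matrix.mulVec dotProduct
  refine Finset.sum_congr rfl (fun x _ => ?_)
  show _ = evN L x b * f (Sum.inl x)
  by_cases h : (x : ℕ) ∈ L[b]
  · rw [evN_pos h, one_mul, if_pos]
    exact h
  · rw [evN_neg h, zero_mul, if_neg]
    exact h

/-- `M = N Nᵀ` -/
noncomputable def evM (L : List (List ℕ)) : Matrix (Fin L.length) (Fin L.length) ℝ :=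
  evN L * (evN L).transpose

lemma evM_apply (L : List (List ℕ)) (x y : Fin L.length) : evM L x y = (incM L x y : ℝ) := by
  unfold evM incM
  rw [Matrix.mul_apply, Finset.card_filter]
  push_cast
  refine Finset.sum_congr rfl (fun b _ => ?_)
  rw [Matrix.transpose_apply]
  by_cases h1 : (x : ℕ) ∈ L[b]
  · by_cases h2 : (y : ℕ) ∈ L[b]
    · rw [evN_pos h1, evN_pos h2, if_pos ⟨h1, h2⟩, one_mul]
    · rw [evN_neg h2, if_neg (fun h => h2 h.2), mul_zero]
  · rw [evN_neg h1, if_neg (fun h => h1 h.1), zero_mul]

lemma incM_comm (L : List (List ℕ)) (x y : Fin L.length) : incM L x y = incM L y x := by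
  unfold incM
  congr 1
  ext b
  simp [and_comm]

lemma mem_evSet_incG (L : List (List ℕ)) (t : ℝ) :
    t ∈ evSet (incG L) ↔ ∃ w : Fin L.length → ℝ, w ≠ 0 ∧ (evM L).mulVec w = (t ^ 2) • w := by
  constructor
  · rintro ⟨f, hf, h⟩
    set w : Fin L.length → ℝ := fun x => f (Sum.inl x) with hw
    set u : Fin L.length → ℝ := fun x => f (Sum.inr x) with hu
    have h1 : (evN L).mulVec u = t • w := by
      funext x
      rw [← ev_sum_inl L f x, h (Sum.inl x)]
      rfl
    have h2 : (evN L).transpose.mulVec w = t • u := by
      funext x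
      rw [← ev_sum_inr L f x, h (Sum.inr x)]
      rfl
    by_cases hw0 : w = 0
    · have hu0 : u ≠ 0 := by
        intro hu0
        apply hf
        funext y
        rcases y with y | y
        · exact congrFun hw0 y
        · exact congrFun hu0 y
      have ht : t = 0 := by
        rw [hw0, Matrix.mulVec_zero] at h2
        rcases smul_eq_zero.1 h2.symm with h3 | h3
        · exact h3
        · exact absurd h3 hu0
      subst ht
      rw [zero_smul] at h1
      have hdet : (evN L).det = 0 := Matrix.exists_mulVec_eq_zero_iff.1 ⟨u, hu0, h1⟩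
      rw [← Matrix.det_transpose] at hdet
      obtain ⟨v, hv0, hv⟩ := Matrix.exists_mulVec_eq_zero_iff.2 hdet
      refine ⟨v, hv0, ?_⟩
      unfold evM
      rw [← Matrix.mulVec_mulVec, hv, Matrix.mulVec_zero]
      simp
    · refine ⟨w, hw0, ?_⟩
      unfold evM
      rw [← Matrix.mulVec_mulVec, h2, Matrix.mulVec_smul, h1, smul_smul, sq]
  · rintro ⟨w, hw0, hw⟩
    have key : ∀ u : Fin L.length → ℝ, (evN L).mulVec u = t • w →
        (evN L).transpose.mulVec w = t • u → t ∈ evSet (incG L) := by
      intro u h1 h2
      refine ⟨Sum.elim w u, ?_, ?_⟩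
      · intro h0
        apply hw0
        funext x
        have := congrFun h0 (Sum.inl x)
        simpa using this
      · intro x
        rcases x with x | x
        · rw [ev_sum_inl]
          have := congrFun h1 x
          simpa using this
        · rw [ev_sum_inr]
          have := congrFun h2 x
          simpa using this
    by_cases ht : t = 0
    · subst ht
      have h3 : (evN L).transpose.mulVec w = 0 := by
        have h4 : (evN L * (evN L).conjTranspose).mulVec w = 0 := by
          rw [Matrix.conjTranspose_eq_transpose_of_trivial]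
          have : (evM L).mulVec w = 0 := by rw [hw]; simp
          exact this
        rw [Matrix.self_mul_conjTranspose_mulVec_eq_zero,
          Matrix.conjTranspose_eq_transpose_of_trivial] at h4
        exact h4
      exact key 0 (by simp) (by rw [h3]; simp)
    · refine key (t⁻¹ • (evN L).transpose.mulVec w) ?_ ?_
      · rw [Matrix.mulVec_smul, Matrix.mulVec_mulVec]
        show t⁻¹ • (evM L).mulVec w = _
        rw [hw, smul_smul]
        congr 1
        field_simp
      · rw [smul_smul, mul_inv_cancel₀ ht, one_smul]

section rows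

variable {L : List (List ℕ)}
  (hrow : ∀ x : Fin L.length, (Finset.univ.filter (fun b : Fin L.length => (x : ℕ) ∈ L[b])).card = 3)
  (hcol : ∀ b : Fin L.length, (Finset.univ.filter (fun x : Fin L.length => (x : ℕ) ∈ L[b])).card = 3)

include hrow in
lemma evN_row (x : Fin L.length) : ∑ b, evN L x b = 3 := by
  unfold evN
  rw [← Finset.sum_filter, Finset.sum_const, hrow x]
  norm_num

include hcol in
lemma evN_col (b : Fin L.length) : ∑ x, evN L x b = 3 := by
  unfold evN
  rw [← Finset.sum_filter, Finset.sum_const, hcol b]
  norm_num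

include hrow hcol in
lemma evM_row (x : Fin L.length) : ∑ y, evM L x y = 9 := by
  unfold evM
  simp only [Matrix.mul_apply, Matrix.transpose_apply]
  rw [Finset.sum_comm]
  have : ∀ b, ∑ y, evN L x b * evN L y b = evN L x b * 3 := by
    intro b
    rw [← Finset.mul_sum, evN_col hcol b]
  rw [Finset.sum_congr rfl (fun b _ => this b), ← Finset.sum_mul, evN_row hrow x]
  norm_num

lemma evM_comm (x y : Fin L.length) : evM L x y = evM L y x := by
  rw [evM_apply, evM_apply, incM_comm]

include hrow hcol in
lemma evM_sum_zero {r : ℝ} {w : Fin L.length → ℝ} (hw : (evM L).mulVec w = r • w) (hr : r ≠ 9) :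
    ∑ x, w x = 0 := by
  have h1 : ∑ x, (evM L).mulVec w x = 9 * ∑ x, w x := by
    unfold Matrix.mulVec dotProduct
    rw [Finset.sum_comm, Finset.mul_sum]
    refine Finset.sum_congr rfl (fun y _ => ?_)
    rw [← Finset.sum_mul]
    congr 1
    rw [← evM_row hrow hcol y]
    exact Finset.sum_congr rfl (fun x _ => evM_comm x y)
  rw [hw] at h1
  have h2 : ∑ x, (r • w) x = r * ∑ x, w x := by
    rw [Finset.mul_sum]
    rfl
  rw [h2] at h1
  have h3 : (r - 9) * ∑ x, w x = 0 := by linarith
  rcases mul_eq_zero.1 h3 with h4 | h4
  · exact absurd (by linarith) hr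
  · exact h4

include hrow hcol in
lemma evM_one : (evM L).mulVec (fun _ => (1 : ℝ)) = (9 : ℝ) • (fun _ => (1 : ℝ)) := by
  funext x
  unfold Matrix.mulVec dotProduct
  simp only [mul_one, Pi.smul_apply, smul_eq_mul]
  exact evM_row hrow hcol x

end rows

theorem evSet_incG (L : List (List ℕ)) (s p c : ℤ)
    (hrow : ∀ x : Fin L.length, (Finset.univ.filter (fun b : Fin L.length => (x : ℕ) ∈ L[b])).card = 3)
    (hcol : ∀ b : Fin L.length, (Finset.univ.filter (fun x : Fin L.length => (x : ℕ) ∈ L[b])).card = 3)
    (heq : ∀ x y : Fin L.length, (Finset.univ.sum fun z => (incM L x z : ℤ) * incM L z y) =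
      s * incM L x y - (if x = y then p else 0) + c)
    (hnc : ∃ x y z : Fin L.length, x ≠ y ∧ x ≠ z ∧ incM L x y ≠ incM L x z) :
    evSet (incG L) = {t : ℝ | t ^ 2 = 9 ∨ (t ^ 2) ^ 2 - s * t ^ 2 + p = 0} := by
  have heq' : ∀ x y : Fin L.length, ∑ z, evM L x z * evM L z y =
      s * evM L x y - (if x = y then (p : ℝ) else 0) + c := by
    intro x y
    have h := congrArg (Int.cast : ℤ → ℝ) (heq x y)
    push_cast at h
    simp only [evM_apply]
    exact h
  ext t
  rw [mem_evSet_incG]
  simp only [Set.mem_setOf_eq]
  obtain ⟨x, y, z, hxy, hxz, hne⟩ := hnc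
  constructor
  · rintro ⟨w, hw0, hw⟩
    by_cases hr : t ^ 2 = 9
    · exact Or.inl hr
    right
    have hsum := evM_sum_zero hrow hcol hw hr
    obtain ⟨a, ha⟩ : ∃ a, w a ≠ 0 := by
      by_contra hcon
      push Not at hcon
      exact hw0 (funext hcon)
    have h1 : (evM L).mulVec ((evM L).mulVec w) a = (t ^ 2) ^ 2 * w a := by
      rw [hw, Matrix.mulVec_smul, hw, smul_smul]
      simp [sq]
    have h2 : (evM L).mulVec ((evM L).mulVec w) a =
        s * ((evM L).mulVec w a) - p * w a + c * ∑ b, w b := by
      rw [Matrix.mulVec_mulVec]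
      unfold Matrix.mulVec dotProduct
      simp only [Matrix.mul_apply, heq' a]
      rw [Finset.mul_sum, Finset.mul_sum]
      have : p * w a = ∑ b, (if a = b then (p : ℝ) else 0) * w b := by
        simp
      rw [this, ← Finset.sum_sub_distrib, ← Finset.sum_add_distrib]
      refine Finset.sum_congr rfl (fun b _ => ?_)
      ring
    rw [h1, hsum, hw] at h2
    simp only [Pi.smul_apply, smul_eq_mul, mul_zero, add_zero] at h2
    have h3 : ((t ^ 2) ^ 2 - s * t ^ 2 + p) * w a = 0 := by linarith
    rcases mul_eq_zero.1 h3 with h4 | h4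
    · exact h4
    · exact absurd h4 ha
  · intro ht
    rcases ht with ht | ht
    · refine ⟨fun _ => 1, ?_, ?_⟩
      · intro h0
        have := congrFun h0 x
        simp at this
      · rw [ht]
        exact evM_one hrow hcol
    · set r : ℝ := t ^ 2 with hr
      have hn : (0 : ℝ) < L.length := by
        have : 0 < L.length := lt_of_le_of_lt (Nat.zero_le _) x.2
        exact_mod_cast this
      have hc : (81 : ℝ) = 9 * s - p + c * L.length := by
        have h1 : ∑ b, ∑ z, evM L x z * evM L z b = 81 := by
          rw [Finset.sum_comm]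
          have : ∀ z, ∑ b, evM L x z * evM L z b = evM L x z * 9 := by
            intro z
            rw [← Finset.mul_sum, evM_row hrow hcol z]
          rw [Finset.sum_congr rfl (fun z _ => this z), ← Finset.sum_mul, evM_row hrow hcol x]
          norm_num
        have h2 : ∑ b, ∑ z, evM L x z * evM L z b = 9 * s - p + c * L.length := by
          rw [Finset.sum_congr rfl (fun b _ => heq' x b), Finset.sum_add_distrib,
            Finset.sum_sub_distrib, ← Finset.mul_sum, evM_row hrow hcol x]
          simp
          ring
        rw [← h1, h2]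
      set r' : ℝ := s - r with hr'
      set c2 : ℝ := (9 - r') / L.length with hc2
      have hcc : c = (9 - r) * c2 := by
        rw [hc2]
        field_simp
        rw [hr']
        nlinarith
      refine ⟨fun a => evM L a x - (if a = x then r' else 0) - c2, ?_, ?_⟩
      · intro h0
        have hy := congrFun h0 y
        have hz := congrFun h0 z
        simp only [Pi.zero_apply] at hy hz
        rw [if_neg (Ne.symm hxy)] at hy
        rw [if_neg (Ne.symm hxz)] at hz
        have h1 : evM L y x = evM L z x := by linarith
        rw [evM_comm y x, evM_comm z x, evM_apply, evM_apply] at h1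
        exact hne (by exact_mod_cast h1)
      · funext a
        unfold Matrix.mulVec dotProduct
        simp only [Pi.smul_apply, smul_eq_mul]
        have h1 : ∑ b, evM L a b * (evM L b x - (if b = x then r' else 0) - c2) =
            ∑ b, evM L a b * evM L b x - evM L a x * r' - 9 * c2 := by
          have e1 : evM L a x * r' = ∑ b, evM L a b * (if b = x then r' else 0) := by
            simp
          rw [e1, ← evM_row hrow hcol a, Finset.sum_mul, ← Finset.sum_sub_distrib,
            ← Finset.sum_sub_distrib]
          refine Finset.sum_congr rfl (fun b _ => ?_)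
          ring
        rw [h1, heq' a x]
        have hp : (p : ℝ) = r * r' := by rw [hr']; linarith
        by_cases hax : a = x
        · rw [if_pos hax, if_pos hax, hcc, hp, hr']
          ring
        · rw [if_neg hax, if_neg hax, hcc, hr']
          ring

theorem evSet_incG_const (L : List (List ℕ)) (l : ℤ)
    (hrow : ∀ x : Fin L.length, (Finset.univ.filter (fun b : Fin L.length => (x : ℕ) ∈ L[b])).card = 3)
    (hcol : ∀ b : Fin L.length, (Finset.univ.filter (fun x : Fin L.length => (x : ℕ) ∈ L[b])).card = 3)
    (h2 : 2 ≤ L.length)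
    (hconst : ∀ x y : Fin L.length, x ≠ y → (incM L x y : ℤ) = l) :
    evSet (incG L) = {t : ℝ | t ^ 2 = 9 ∨ t ^ 2 = 3 - l} := by
  have hM : ∀ x y : Fin L.length, evM L x y = (if x = y then (3 - l : ℝ) else 0) + l := by
    intro x y
    rw [evM_apply]
    by_cases hxy : x = y
    · subst hxy
      rw [if_pos rfl]
      have : incM L x x = 3 := by
        unfold incM
        rw [← hrow x]
        congr 1
        ext b
        simp
      rw [this]
      push_cast
      ring
    · rw [if_neg hxy, zero_add]
      have := congrArg (Int.cast : ℤ → ℝ) (hconst x y hxy)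
      push_cast at this
      exact this
  have hMw : ∀ (w : Fin L.length → ℝ) (a : Fin L.length),
      (evM L).mulVec w a = (3 - l) * w a + l * ∑ b, w b := by
    intro w a
    unfold Matrix.mulVec dotProduct
    simp only [hM a]
    have : (3 - l : ℝ) * w a = ∑ b, (if a = b then (3 - l : ℝ) else 0) * w b := by simp
    rw [this, Finset.mul_sum, ← Finset.sum_add_distrib]
    refine Finset.sum_congr rfl (fun b _ => ?_)
    ring
  ext t
  rw [mem_evSet_incG]
  simp only [Set.mem_setOf_eq]
  constructor
  · rintro ⟨w, hw0, hw⟩
    by_cases hr : t ^ 2 = 9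
    · exact Or.inl hr
    right
    have hsum := evM_sum_zero hrow hcol hw hr
    obtain ⟨a, ha⟩ : ∃ a, w a ≠ 0 := by
      by_contra hcon
      push Not at hcon
      exact hw0 (funext hcon)
    have h1 := congrFun hw a
    rw [hMw w a, hsum] at h1
    simp only [Pi.smul_apply, smul_eq_mul, mul_zero, add_zero] at h1
    exact (mul_right_cancel₀ ha h1).symm
  · intro ht
    rcases ht with ht | ht
    · refine ⟨fun _ => 1, ?_, ?_⟩
      · intro h0
        have := congrFun h0 ⟨0, by omega⟩
        simp at this
      · rw [ht]
        exact evM_one hrow hcol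
    · set x0 : Fin L.length := ⟨0, by omega⟩ with hx0
      set x1 : Fin L.length := ⟨1, by omega⟩ with hx1
      have hx : x0 ≠ x1 := by
        intro h
        have := congrArg Fin.val h
        simp [hx0, hx1] at this
      refine ⟨fun a => (if a = x0 then 1 else 0) - (if a = x1 then 1 else 0), ?_, ?_⟩
      · intro h0
        have := congrFun h0 x0
        simp [hx] at this
      · funext a
        rw [hMw, ht]
        simp

end R29.CB
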