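import Pool.Agent.R29.CB.Defs

/-!
A certificate checker for the exhaustive construction of cubic bipartite graphs:
partial structures are lists of blocks (bit masks of labels).
-/

namespace R29.CB

open Finset

/-! ## Computable part -/

/-- sum over a list -/
def lsum (g : ℕ → ℕ) : List ℕ → ℕ
  | [] => 0
  | k :: L => g k + lsum g L

/-- number of masks in `L` containing both `x` and `y` -/
def cnt (L : List ℕ) (x y : ℕ) : ℕ :=
  lsum (fun k => bif k.testBit x && k.testBit y then 1 else 0) L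

/-- number of common labels `< m` of two masks -/
def pc (k l : ℕ) : ℕ → ℕ
  | 0 => 0
  | m + 1 => pc k l m + (bif k.testBit m && l.testBit m then 1 else 0)

/-- number of known 4-walks from label `x` to label `y` -/
def SS (m : ℕ) (L : List ℕ) (x y : ℕ) : ℕ :=
  lsum (fun k => bif k.testBit x then
    lsum (fun l => bif l.testBit y then pc k l m else 0) L else 0) L

structure Th where
  v : ℕ
  s : ℕ
  c : ℕ
  D9 : ℕ
  full : Bool

inductive Cert
  | big
  | dia (a : ℕ)
  | gt (a b : ℕ)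
  | ne (a b : ℕ)
  | go (j : ℕ) (σ : List ℕ)

structure Node where
  m : ℕ
  L : List ℕ
  x : ℕ
  cs : List Cert

/-- relabel a mask -/
def pull : List ℕ → ℕ → ℕ
  | [], _ => 0
  | a :: σ, k => (bif k.testBit a then 1 else 0) + 2 * pull σ k

def allLt (m : ℕ) : List ℕ → Bool
  | [] => true
  | a :: σ => Nat.blt a m && allLt m σ

def notMem (a : ℕ) : List ℕ → Bool
  | [] => true
  | b :: σ => !(Nat.beq a b) && notMem a σ

def nodupB : List ℕ → Bool
  | [] => true
  | a :: σ => notMem a σ && nodupB σ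

def isoB (σ : List ℕ) (m : ℕ) (L : List ℕ) (m2 : ℕ) (L2 : List ℕ) : Bool :=
  Nat.beq m2 m && Nat.beq σ.length m && allLt m σ && nodupB σ && (L.map (pull σ)).isPerm L2

def unsatL (L : List ℕ) (m x : ℕ) : List ℕ :=
  (List.range m).filter (fun y => !(Nat.beq y x) && Nat.blt (cnt L y y) 3)

def pairsL : List ℕ → List (ℕ × ℕ)
  | [] => []
  | a :: U => U.map (fun b => (a, b)) ++ pairsL U

def children (L : List ℕ) (m x : ℕ) : List (ℕ × ℕ) :=
  (pairsL (unsatL L m x)).map (fun p => (m, 2 ^ x + 2 ^ p.1 + 2 ^ p.2)) ++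
    ((unsatL L m x).map (fun y => (m + 1, 2 ^ x + 2 ^ y + 2 ^ m)) ++
      [(m + 2, 2 ^ x + 2 ^ m + 2 ^ (m + 1))])

def checkCert (θ : Th) (T : List Node) (i : ℕ) (m : ℕ) (L : List ℕ) : Cert → Bool
  | .big => θ.full && Nat.blt θ.v m
  | .dia a => Nat.blt a m && Nat.beq (cnt L a a) 3 && !(Nat.beq (SS m L a a) θ.D9)
  | .gt a b => θ.full && Nat.blt a m && Nat.blt b m && !(Nat.beq a b) && Nat.beq (cnt L a a) 3 &&
      Nat.blt (θ.s * cnt L a b + θ.c) (SS m L a b)
  | .ne a b => θ.full && Nat.blt a m && Nat.blt b m && !(Nat.beq a b) && Nat.beq (cnt L a a) 3 &&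
      Nat.beq (cnt L b b) 3 && !(Nat.beq (SS m L a b) (θ.s * cnt L a b + θ.c))
  | .go j σ => match T[j]? with
    | some nd => Nat.blt i j && isoB σ m L nd.m nd.L
    | none => false

def checkZip (θ : Th) (T : List Node) (i : ℕ) (L : List ℕ) : List (ℕ × ℕ) → List Cert → Bool
  | [], [] => true
  | (m, k) :: ch, c :: cs => checkCert θ T i m (k :: L) c && checkZip θ T i L ch cs
  | _, _ => false

def satAll (L : List ℕ) : ℕ → Bool
  | 0 => true
  | m + 1 => Nat.beq (cnt L m m) 3 && satAll L m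

def checkNode (θ : Th) (T : List Node) (i : ℕ) (nd : Node) : Bool :=
  bif Nat.beq nd.x nd.m then satAll nd.L nd.m
  else Nat.blt nd.x nd.m && Nat.blt (cnt nd.L nd.x nd.x) 3 &&
    checkZip θ T i nd.L (children nd.L nd.m nd.x) nd.cs

def checkFrom (θ : Th) (T : List Node) : ℕ → List Node → Bool
  | _, [] => true
  | i, nd :: R => checkNode θ T i nd && checkFrom θ T (i + 1) R

def checkTable (θ : Th) (T : List Node) : Bool := checkFrom θ T 0 T

end R29.CB
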