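import Pool.Agent.R29.CB.Tabs
set_option linter.all false

/-! From the matrix equation to the finite list of parameter sets. -/

namespace R29.CB

open Finset

universe u

variable {V : Type u} [Fintype V] [DecidableEq V]
variable {G : SimpleGraph V} [DecidableRel G.Adj] {col : V → Bool}

theorem lam_sum (x y : V) : lam G x y = ∑ a ∈ G.neighborFinset x, if G.Adj y a then 1 else 0 := by
  unfold lam
  rw [← Finset.card_filter]
  congr 1
  ext a
  simp

theorem lam_comm (x y : V) : lam G x y = lam G y x := by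
  unfold lam; rw [Finset.inter_comm]

theorem lam_self (h : CubBip G col) (x : V) : lam G x x = 3 := by
  unfold lam; rw [Finset.inter_self, h.reg]

theorem lam_le (h : CubBip G col) (x y : V) : lam G x y ≤ 3 := by
  unfold lam
  rw [← h.reg x]
  exact Finset.card_le_card Finset.inter_subset_left

theorem lam_col (h : CubBip G col) {x y : V} (hl : lam G x y ≠ 0) : col y = col x := by
  unfold lam at hl
  obtain ⟨a, ha⟩ := Finset.card_pos.1 (Nat.pos_of_ne_zero hl)
  rw [Finset.mem_inter, SimpleGraph.mem_neighborFinset, SimpleGraph.mem_neighborFinset] at ha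
  have h1 := h.proper _ _ ha.1
  have h2 := h.proper _ _ ha.2
  revert h1 h2
  cases col x <;> cases col y <;> cases col a <;> simp

theorem row_sum (h : CubBip G col) (x : V) : ∑ y, lam G x y = 9 := by
  have h1 : ∀ y, lam G x y = ∑ a ∈ G.neighborFinset x, if G.Adj y a then 1 else 0 := fun y => lam_sum x y
  simp_rw [h1]
  rw [Finset.sum_comm]
  have h2 : ∀ a ∈ G.neighborFinset x, (∑ y, if G.Adj y a then 1 else 0) = 3 := by
    intro a _
    rw [← Finset.card_filter, ← h.reg a]
    congr 1
    ext y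
    simp [SimpleGraph.adj_comm]
  rw [Finset.sum_congr rfl h2, Finset.sum_const, h.reg]
  rfl

theorem W4_eq (x z : V) : W4 G x z = ∑ y, lam G x y * lam G y z := by
  have h1 : ∀ y, lam G x y * lam G y z =
      ∑ a ∈ G.neighborFinset x, ∑ b ∈ G.neighborFinset z,
        (if G.Adj y a then 1 else 0) * (if G.Adj y b then 1 else 0) := by
    intro y
    rw [lam_sum x y, lam_comm y z, lam_sum z y, Finset.sum_mul_sum]
  simp_rw [h1]
  rw [Finset.sum_comm]
  unfold W4
  refine Finset.sum_congr rfl fun a _ => ?_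
  rw [Finset.sum_comm]
  refine Finset.sum_congr rfl fun b _ => ?_
  unfold lam
  have h2 : ∀ y, ((if G.Adj y a then 1 else 0) * (if G.Adj y b then 1 else 0) : ℕ) =
      if (G.Adj y a ∧ G.Adj y b) then 1 else 0 := by
    intro y
    by_cases h1 : G.Adj y a <;> by_cases h2 : G.Adj y b <;> simp [h1, h2]
  simp_rw [h2]
  rw [← Finset.card_filter]
  congr 1
  ext y
  simp [SimpleGraph.adj_comm]

theorem row6 (h : CubBip G col) (x : V) : ∑ y ∈ univ.erase x, lam G x y = 6 := by
  have h1 := row_sum h x
  rw [← Finset.add_sum_erase _ _ (Finset.mem_univ x), lam_self h] at h1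
  omega

theorem rowsq (h : CubBip G col) (x : V) : ∑ y ∈ univ.erase x, lam G x y * lam G x y + 9 = W4 G x x := by
  rw [W4_eq, ← Finset.add_sum_erase _ _ (Finset.mem_univ x), lam_self h]
  have : ∑ y ∈ univ.erase x, lam G x y * lam G y x = ∑ y ∈ univ.erase x, lam G x y * lam G x y :=
    Finset.sum_congr rfl fun y _ => by rw [lam_comm y x]
  rw [this]
  omega

theorem D9_lower (h : CubBip G col) (x : V) : 15 ≤ W4 G x x := by
  rw [← rowsq h x]
  have : ∑ y ∈ univ.erase x, lam G x y ≤ ∑ y ∈ univ.erase x, lam G x y * lam G x y :=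
    Finset.sum_le_sum fun y _ => Nat.le_mul_self _
  rw [row6 h] at this
  omega

theorem D9_upper (h : CubBip G col) (x : V) : W4 G x x ≤ 27 := by
  rw [← rowsq h x]
  have : ∑ y ∈ univ.erase x, lam G x y * lam G x y ≤ ∑ y ∈ univ.erase x, 3 * lam G x y :=
    Finset.sum_le_sum fun y _ => Nat.mul_le_mul_right _ (lam_le h x y)
  rw [← Finset.mul_sum, row6 h] at this
  omega

theorem exists_one (h : CubBip G col) (x : V) (hD : W4 G x x < 21) :
    ∃ y, y ≠ x ∧ lam G x y = 1 := by
  by_contra hcon
  push Not at hcon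
  have : ∑ y ∈ univ.erase x, 2 * lam G x y ≤ ∑ y ∈ univ.erase x, lam G x y * lam G x y := by
    refine Finset.sum_le_sum fun y hy => ?_
    have h1 := hcon y (Finset.ne_of_mem_erase hy)
    have h2 := lam_le h x y
    interval_cases lam G x y <;> simp_all
  rw [← Finset.mul_sum, row6 h] at this
  have := rowsq h x
  omega

theorem ne_three (h : CubBip G col) (x : V) (hD : W4 G x x < 21) (y : V) (hy : y ≠ x) :
    lam G x y ≤ 2 := by
  by_contra hcon
  have h3 : lam G x y = 3 := by have := lam_le h x y; omega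
  have hmem : y ∈ univ.erase x := Finset.mem_erase.2 ⟨hy, Finset.mem_univ _⟩
  have h6 := row6 h x
  have hsq := rowsq h x
  rw [← Finset.add_sum_erase _ _ hmem, h3] at h6 hsq
  have : ∑ z ∈ (univ.erase x).erase y, lam G x z ≤ ∑ z ∈ (univ.erase x).erase y, lam G x z * lam G x z :=
    Finset.sum_le_sum fun z _ => Nat.le_mul_self _
  omega

theorem exists_two (h : CubBip G col) (x : V) (hD : W4 G x x < 21) (hD' : 15 < W4 G x x) :
    ∃ y, y ≠ x ∧ lam G x y = 2 := by
  by_contra hcon
  push Not at hcon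
  have : ∑ y ∈ univ.erase x, lam G x y * lam G x y = ∑ y ∈ univ.erase x, lam G x y := by
    refine Finset.sum_congr rfl fun y hy => ?_
    have h1 := hcon y (Finset.ne_of_mem_erase hy)
    have h2 := ne_three h x hD y (Finset.ne_of_mem_erase hy)
    interval_cases lam G x y <;> simp_all
  rw [row6 h] at this
  have := rowsq h x
  omega

theorem le_one (h : CubBip G col) (x : V) (hD : W4 G x x = 15) (y : V) (hy : y ≠ x) :
    lam G x y ≤ 1 := by
  by_contra hcon
  have hmem : y ∈ univ.erase x := Finset.mem_erase.2 ⟨hy, Finset.mem_univ _⟩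
  have h6 := row6 h x
  have hsq := rowsq h x
  rw [← Finset.add_sum_erase _ _ hmem] at h6 hsq
  have h1 : ∑ z ∈ (univ.erase x).erase y, lam G x z ≤ ∑ z ∈ (univ.erase x).erase y, lam G x z * lam G x z :=
    Finset.sum_le_sum fun z _ => Nat.le_mul_self _
  have h2 : lam G x y + 2 ≤ lam G x y * lam G x y := by
    have : 2 ≤ lam G x y := by omega
    nlinarith
  omega

/-! ### enumeration of the parameters -/

def memB (v s c D9 : ℕ) : Bool :=
  thFull.any (fun t => Nat.beq t.v v && Nat.beq t.s s && Nat.beq t.c c && Nat.beq t.D9 D9 && t.full)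

theorem memB_sound {v s c D9 : ℕ} (h : memB v s c D9 = true) : (⟨v, s, c, D9, true⟩ : Th) ∈ thFull := by
  unfold memB at h
  rw [List.any_eq_true] at h
  obtain ⟨t, ht, h⟩ := h
  simp only [Bool.and_eq_true, beq_iff] at h
  obtain ⟨⟨⟨⟨h1, h2⟩, h3⟩, h4⟩, h5⟩ := h
  have : t = ⟨v, s, c, D9, true⟩ := by
    cases t
    simp_all
  rw [← this]; exact ht

def enumOk (D9 : ℕ) : Bool :=
  (List.range 14).all fun s => (List.range 67).all fun c => (List.range 67).all fun w =>
    !(Nat.beq (6 * s + w * c) (81 - D9) && Nat.ble 1 w && Nat.ble 1 c && Nat.ble D9 (3 * s + c) &&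
      Nat.ble (4 * (3 * s + c - D9)) (s * s)) || memB (w + 1) s c D9

theorem enum15 : enumOk 15 = true := by decide +kernel
theorem enum17 : enumOk 17 = true := by decide +kernel
theorem enum19 : enumOk 19 = true := by decide +kernel

theorem enum_sound {D9 s c w : ℕ} (h : enumOk D9 = true) (hD : 15 ≤ D9) (hD' : D9 < 81)
    (h1 : 6 * s + w * c = 81 - D9)
    (hw : 1 ≤ w) (hc : 1 ≤ c) (h2 : D9 ≤ 3 * s + c) (h3 : 4 * (3 * s + c - D9) ≤ s * s) :
    (⟨w + 1, s, c, D9, true⟩ : Th) ∈ thFull := by
  apply memB_sound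
  have hs : s < 14 := by omega
  have hwc : w * c ≤ 66 := by omega
  have hw' : w < 67 := by nlinarith
  have hc' : c < 67 := by nlinarith
  unfold enumOk at h
  have h4 := List.all_eq_true.1 h s (List.mem_range.2 hs)
  have h5 := List.all_eq_true.1 h4 c (List.mem_range.2 hc')
  have h6 := List.all_eq_true.1 h5 w (List.mem_range.2 hw')
  have h7 : (Nat.beq (6 * s + w * c) (81 - D9) && Nat.ble 1 w && Nat.ble 1 c && Nat.ble D9 (3 * s + c) &&
      Nat.ble (4 * (3 * s + c - D9)) (s * s)) = true := by
    simp only [Bool.and_eq_true, beq_iff, Nat.ble_eq]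
    exact ⟨⟨⟨⟨h1, hw⟩, hc⟩, h2⟩, h3⟩
  rw [h7] at h6
  simpa using h6

theorem thDiag_mem (D9 : ℕ) (h1 : 15 ≤ D9) (h2 : D9 ≤ 27) (h3 : D9 ≠ 15) (h4 : D9 ≠ 17)
    (h5 : D9 ≠ 19) : (⟨0, 0, 0, D9, false⟩ : Th) ∈ thDiag := by
  have : thDiag.any (fun t => Nat.beq t.v 0 && Nat.beq t.s 0 && Nat.beq t.c 0 &&
      Nat.beq t.D9 D9 && !t.full) = true := by
    interval_cases D9 <;> first | omega | decide +kernel
  rw [List.any_eq_true] at this
  obtain ⟨t, ht, h⟩ := this
  simp only [Bool.and_eq_true, beq_iff] at h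
  obtain ⟨⟨⟨⟨h1, h2⟩, h3⟩, h4⟩, h5⟩ := h
  have : t = ⟨0, 0, 0, D9, false⟩ := by
    cases t
    simp_all
  rw [← this]; exact ht

theorem params (h : CubBip G col) {s p c : ℝ} (hs : 0 ≤ s) (hp : 0 ≤ p) (hd : 4 * p ≤ s ^ 2)
    (hc : 0 < c) (hE : Eqn G col s p c)
    (hv : c * ((univ.filter (fun x => col x = true)).card : ℝ) = 81 - 9 * s + p) :
    ∃ θ, Good.{u} θ ∧ Sat θ G col := by
  set P : Finset V := univ.filter (fun x => col x = true) with hP
  have hmemP : ∀ x, x ∈ P ↔ col x = true := by intro x; rw [hP]; simp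
  -- a point
  obtain ⟨x0, hx0⟩ : ∃ x, col x = true := by
    obtain ⟨f, S, hRD⟩ := real_start h
    exact ⟨f 0, hRD.colf 0 (by norm_num)⟩
  have hdiag : ∀ x, col x = true → (W4 G x x : ℝ) = 3 * s - p + c := by
    intro x hx
    have := hE x x hx hx
    rw [if_pos rfl, lam_self h] at this
    rw [this]; push_cast; ring
  have hoff : ∀ x y, col x = true → col y = true → x ≠ y → (W4 G x y : ℝ) = s * lam G x y + c := by
    intro x y hx hy hxy
    have := hE x y hx hy
    rw [if_neg hxy] at this
    rw [this]; ring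
  obtain ⟨D9, hD9⟩ : ∃ D9, D9 = W4 G x0 x0 := ⟨_, rfl⟩
  have hD : ∀ x, col x = true → W4 G x x = D9 := by
    intro x hx
    have h1 := hdiag x hx
    have h2 := hdiag x0 hx0
    rw [← hD9] at h2
    have : (W4 G x x : ℝ) = (D9 : ℝ) := by rw [h1, h2]
    exact_mod_cast this
  have hD9r : (D9 : ℝ) = 3 * s - p + c := by rw [hD9]; exact hdiag x0 hx0
  have hlow := D9_lower h x0
  have hup := D9_upper h x0
  rw [← hD9] at hlow hup
  -- basic identity
  have hid : 6 * s + ((P.card : ℝ) - 1) * c = 81 - D9 := by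
    rw [hD9r]; linarith
  -- the diagonal theories
  by_cases hdg : D9 ≠ 15 ∧ D9 ≠ 17 ∧ D9 ≠ 19
  · refine ⟨⟨0, 0, 0, D9, false⟩, good_thDiag _ ?_, hD, ?_⟩
    · exact thDiag_mem D9 hlow hup hdg.1 hdg.2.1 hdg.2.2
    · intro hf; exact absurd hf (by simp)
  have hD3 : D9 = 15 ∨ D9 = 17 ∨ D9 = 19 := by
    by_contra hcon
    push Not at hcon
    exact hdg hcon
  have hlt21 : ∀ x, col x = true → W4 G x x < 21 := by
    intro x hx; rw [hD x hx]; omega
  obtain ⟨y1, hy1, hl1⟩ := exists_one h x0 (hlt21 x0 hx0)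
  have hcy1 : col y1 = true := by rw [lam_col h (by rw [hl1]; norm_num : lam G x0 y1 ≠ 0)]; exact hx0
  have hw1 := hoff x0 y1 hx0 hcy1 hy1.symm
  rw [hl1] at hw1
  have hv2 : 2 ≤ P.card := by
    have : ({x0, y1} : Finset V) ⊆ P := by
      intro z hz
      rcases Finset.mem_insert.1 hz with rfl | hz
      · exact (hmemP _).2 hx0
      · rw [Finset.mem_singleton] at hz; subst hz; exact (hmemP _).2 hcy1
    have h1 := Finset.card_le_card this
    rwa [Finset.card_pair hy1.symm] at h1
  -- finish from integral parameters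
  have finish : ∀ s' c' : ℕ, s = (s' : ℝ) → c = (c' : ℝ) → ∃ θ, Good.{u} θ ∧ Sat θ G col := by
    intro s' c' hs' hc'
    have hc1 : 1 ≤ c' := by
      rw [hc'] at hc
      have : 0 < c' := by exact_mod_cast hc
      omega
    obtain ⟨w, hw⟩ : ∃ w, P.card = w + 1 := ⟨P.card - 1, by omega⟩
    have hw1' : 1 ≤ w := by omega
    have hid' : 6 * s' + w * c' = 81 - D9 := by
      have h1 : (6 * s' + w * c' + D9 : ℝ) = 81 := by
        rw [hw] at hid
        rw [hs', hc'] at hid
        push_cast at hid
        linarith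
      have h2 : 6 * s' + w * c' + D9 = 81 := by exact_mod_cast h1
      omega
    have hpge : D9 ≤ 3 * s' + c' := by
      have : (D9 : ℝ) ≤ 3 * s' + c' := by
        rw [hD9r, hs', hc']; linarith
      exact_mod_cast this
    have hdisc : 4 * (3 * s' + c' - D9) ≤ s' * s' := by
      have h1 : p = ((3 * s' + c' - D9 : ℕ) : ℝ) := by
        rw [Nat.cast_sub hpge]
        push_cast
        rw [← hs', ← hc', hD9r]; ring
      rw [h1, hs', sq] at hd
      exact_mod_cast hd
    have hmem : (⟨w + 1, s', c', D9, true⟩ : Th) ∈ thFull := by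
      rcases hD3 with h15 | h17 | h19
      · subst h15; exact enum_sound enum15 (by norm_num) (by norm_num) hid' hw1' hc1 hpge hdisc
      · subst h17; exact enum_sound enum17 (by norm_num) (by norm_num) hid' hw1' hc1 hpge hdisc
      · subst h19; exact enum_sound enum19 (by norm_num) (by norm_num) hid' hw1' hc1 hpge hdisc
    refine ⟨_, good_thFull _ hmem, hD, fun _ => ⟨hw, ?_⟩⟩
    intro x y hx hy hxy
    have := hoff x y hx hy hxy
    rw [hs', hc'] at this
    exact_mod_cast this
  by_cases h15 : D9 = 15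
  · by_cases hz : ∃ y, col y = true ∧ y ≠ x0 ∧ lam G x0 y = 0
    · obtain ⟨y, hcy, hyx, hly⟩ := hz
      have hw0 := hoff x0 y hx0 hcy hyx.symm
      rw [hly] at hw0
      push_cast at hw0 hw1
      have hge : W4 G x0 y ≤ W4 G x0 y1 := by
        have : (W4 G x0 y : ℝ) ≤ (W4 G x0 y1 : ℝ) := by rw [hw0, hw1]; linarith
        exact_mod_cast this
      refine finish (W4 G x0 y1 - W4 G x0 y) (W4 G x0 y) ?_ ?_
      · rw [Nat.cast_sub hge]; linarith
      · linarith
    · push Not at hz
      -- all off-diagonal values are 1, seven points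
      have hle : ∀ x, col x = true → ∀ y, y ≠ x → lam G x y ≤ 1 := by
        intro x hx y hy
        exact le_one h x (by rw [hD x hx, h15]) y hy
      have hcard : P.card = 7 := by
        have h6 := row6 h x0
        have h7 : ∑ y ∈ univ.erase x0, lam G x0 y = ∑ y ∈ P.erase x0, 1 := by
          rw [← Finset.sum_subset (Finset.erase_subset_erase x0 (Finset.subset_univ P))]
          · refine Finset.sum_congr rfl fun y hy => ?_
            rw [Finset.mem_erase, hmemP] at hy
            have h1 := hz y hy.2 hy.1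
            have h2 := hle x0 hx0 y hy.1
            omega
          · intro y hy hyP
            by_contra hne
            apply hyP
            rw [Finset.mem_erase, hmemP, lam_col h hne]
            exact ⟨Finset.ne_of_mem_erase hy, hx0⟩
        rw [h6, Finset.sum_const, Finset.card_erase_of_mem ((hmemP x0).2 hx0)] at h7
        simp at h7
        omega
      have hone : ∀ x y, col x = true → col y = true → x ≠ y → lam G x y = 1 := by
        intro x y hx hy hxy
        by_contra hne
        have h0 : lam G x y = 0 := by have := hle x hx y hxy.symm; omega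
        have h6 := row6 h x
        have h7 : ∑ z ∈ univ.erase x, lam G x z ≤ ∑ z ∈ (P.erase x).erase y, 1 := by
          rw [← Finset.sum_subset ((Finset.erase_subset y _).trans
            (Finset.erase_subset_erase x (Finset.subset_univ P)))]
          · refine Finset.sum_le_sum fun z hz => ?_
            rw [Finset.mem_erase, Finset.mem_erase] at hz
            exact hle x hx z hz.2.1
          · intro z hz hzP
            by_contra hnz
            apply hzP
            rw [Finset.mem_erase, Finset.mem_erase, hmemP, lam_col h hnz]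
            exact ⟨fun he => hnz (by rw [he]; exact h0), Finset.ne_of_mem_erase hz, hx⟩
        rw [h6, Finset.sum_const, Finset.card_erase_of_mem
          (Finset.mem_erase.2 ⟨hxy.symm, (hmemP y).2 hy⟩),
          Finset.card_erase_of_mem ((hmemP x).2 hx), hcard] at h7
        simp at h7
      have hsc : s + c = 11 := by
        rw [hcard, h15] at hid
        push_cast at hid
        linarith
      refine ⟨⟨7, 2, 9, 15, true⟩, good_thFull _ (memB_sound (by decide +kernel)), ?_, fun _ => ⟨hcard, ?_⟩⟩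
      · intro x hx; rw [hD x hx, h15]
      · intro x y hx hy hxy
        have h1 := hoff x y hx hy hxy
        rw [hone x y hx hy hxy] at h1 ⊢
        have : (W4 G x y : ℝ) = 11 := by rw [h1]; push_cast; linarith
        have : W4 G x y = 11 := by exact_mod_cast this
        rw [this]
        rfl
  · obtain ⟨y2, hy2, hl2⟩ := exists_two h x0 (hlt21 x0 hx0) (by rw [← hD9]; omega)
    have hcy2 : col y2 = true := by rw [lam_col h (by rw [hl2]; norm_num : lam G x0 y2 ≠ 0)]; exact hx0
    have hw2 := hoff x0 y2 hx0 hcy2 hy2.symm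
    rw [hl2] at hw2
    push_cast at hw1 hw2
    have hge : W4 G x0 y1 ≤ W4 G x0 y2 := by
      have : (W4 G x0 y1 : ℝ) ≤ (W4 G x0 y2 : ℝ) := by rw [hw1, hw2]; linarith
      exact_mod_cast this
    have hge2 : W4 G x0 y2 ≤ 2 * W4 G x0 y1 := by
      have : (W4 G x0 y2 : ℝ) ≤ ((2 * W4 G x0 y1 : ℕ) : ℝ) := by push_cast; rw [hw1, hw2]; linarith
      exact_mod_cast this
    refine finish (W4 G x0 y2 - W4 G x0 y1) (2 * W4 G x0 y1 - W4 G x0 y2) ?_ ?_
    · rw [Nat.cast_sub hge]; linarith
    · rw [Nat.cast_sub hge2]; push_cast; linarith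

end R29.CB
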