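import Pool.Agent.R29.CB.Sound2
set_option linter.all false

/-! Soundness of the certificate checker, part 3: running a table; leaves. -/

namespace R29.CB

open Finset

variable {V : Type*} [Fintype V] [DecidableEq V]
variable {G : SimpleGraph V} [DecidableRel G.Adj] {col : V → Bool} {f : ℕ → V} {S : Finset V}
  {m : ℕ} {L : List ℕ}

theorem satAll_iff (L : List ℕ) (m : ℕ) : satAll L m = true ↔ ∀ y < m, cnt L y y = 3 := by
  induction m with
  | zero => simp [satAll]
  | succ m ih =>
    rw [satAll, Bool.and_eq_true, beq_iff, ih]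
    constructor
    · rintro ⟨h1, h2⟩ y hy
      by_cases hym : y = m
      · subst hym; exact h1
      · exact h2 y (by omega)
    · intro h
      exact ⟨h m (by omega), fun y hy => h y (by omega)⟩

theorem checkZip_mem (θ : Th) (T : List Node) (i : ℕ) (L : List ℕ) :
    ∀ (ch : List (ℕ × ℕ)) (cs : List Cert), checkZip θ T i L ch cs = true →
      ∀ p ∈ ch, ∃ c, checkCert θ T i p.1 (p.2 :: L) c = true := by
  intro ch
  induction ch with
  | nil => intro cs _ p hp; simp at hp
  | cons q ch ih =>
    intro cs hcs p hp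
    obtain ⟨m, k⟩ := q
    cases cs with
    | nil => simp [checkZip] at hcs
    | cons c cs =>
      rw [checkZip, Bool.and_eq_true] at hcs
      rcases List.mem_cons.1 hp with rfl | hp
      · exact ⟨c, hcs.1⟩
      · exact ih cs hcs.2 p hp

theorem checkFrom_get (θ : Th) (T : List Node) : ∀ (R : List Node) (i : ℕ), checkFrom θ T i R = true →
    ∀ j nd, R[j]? = some nd → checkNode θ T (i + j) nd = true := by
  intro R
  induction R with
  | nil => intro i _ j nd h; simp at h
  | cons a R ih =>
    intro i hR j nd h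
    rw [checkFrom, Bool.and_eq_true] at hR
    cases j with
    | zero =>
      simp only [List.getElem?_cons_zero, Option.some.injEq] at h
      subst h; exact hR.1
    | succ j =>
      rw [List.getElem?_cons_succ] at h
      have := ih (i + 1) hR.2 j nd h
      rwa [show i + 1 + j = i + (j + 1) by ring] at this

/-- every realized node of a checked table leads to a realized leaf -/
theorem run {θ : Th} (hG : CubBip G col) (hs : Sat θ G col) (T : List Node)
    (hT : checkTable θ T = true) : ∀ (n i : ℕ) (nd : Node), T.length - i ≤ n → T[i]? = some nd →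
    Real G col nd.m nd.L → ∃ (k : ℕ) (nd' : Node), T[k]? = some nd' ∧ nd'.x = nd'.m ∧
      (∀ y < nd'.m, cnt nd'.L y y = 3) ∧ Real G col nd'.m nd'.L := by
  intro n
  induction n with
  | zero =>
    intro i nd hi hnd _
    have : i < T.length := by
      rw [List.getElem?_eq_some_iff] at hnd
      exact hnd.1
    omega
  | succ n ih =>
    intro i nd hi hnd hR
    have hc := checkFrom_get θ T T 0 hT i nd hnd
    rw [Nat.zero_add] at hc
    unfold checkNode at hc
    cases hb : Nat.beq nd.x nd.m with
    | true =>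
      rw [hb, cond_true] at hc
      rw [satAll_iff] at hc
      exact ⟨i, nd, hnd, (beq_iff _ _).1 hb, hc, hR⟩
    | false =>
      rw [hb, cond_false, Bool.and_eq_true, Bool.and_eq_true, blt_iff, blt_iff] at hc
      obtain ⟨⟨hx, h3⟩, hz⟩ := hc
      obtain ⟨f, S, hRD⟩ := hR
      obtain ⟨ch, hch, hR'⟩ := step hG hRD hx h3
      obtain ⟨c, hc⟩ := checkZip_mem θ T i nd.L _ _ hz ch hch
      obtain ⟨f', S', hRD'⟩ := hR'
      obtain ⟨j, nd', hj, hij, σ, hσ⟩ := kill_sound hG hs hRD' T i c hc
      have hreal := iso_sound hRD' hσ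
      have hi' : i < T.length := by
        rw [List.getElem?_eq_some_iff] at hnd
        exact hnd.1
      exact ih j nd' (by omega) hj hreal

/-- the initial state -/
theorem real_start (hG : CubBip G col) : Real G col 3 [7] := by
  obtain ⟨x⟩ := hG.conn.nonempty
  -- a vertex of colour false
  obtain ⟨l, hl⟩ : ∃ l, col l = false := by
    cases hx : col x with
    | false => exact ⟨x, hx⟩
    | true =>
      have : (G.neighborFinset x).Nonempty := by
        rw [← Finset.card_pos, hG.reg]; norm_num
      obtain ⟨y, hy⟩ := this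
      rw [SimpleGraph.mem_neighborFinset] at hy
      have h1 := hG.proper _ _ hy
      rw [hx] at h1
      refine ⟨y, ?_⟩
      cases hc : col y
      · rfl
      · exact absurd hc.symm h1
  obtain ⟨a, b, c, hab, hac, hbc, hN⟩ := Finset.card_eq_three.1 (hG.reg l)
  have hcolv : ∀ v, G.Adj l v → col v = true := by
    intro v hv
    have := hG.proper _ _ hv
    rw [hl] at this
    cases hc : col v
    · exact absurd hc.symm this
    · rfl
  have hadj : ∀ v, G.Adj l v ↔ v = a ∨ v = b ∨ v = c := by
    intro v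
    rw [← SimpleGraph.mem_neighborFinset, hN]
    simp
  have h0 : RD G col (fun i => if i = 0 then a else if i = 1 then b else c) ∅ 3 [] := by
    refine ⟨?_, ?_, ?_, ?_, ?_⟩
    · intro i hi
      have : i = 0 ∨ i = 1 ∨ i = 2 := by omega
      rcases this with rfl | rfl | rfl
      · exact hcolv a ((hadj a).2 (by simp))
      · exact hcolv b ((hadj b).2 (by simp))
      · exact hcolv c ((hadj c).2 (by simp))
    · intro i hi j hj hij
      have h1 : i = 0 ∨ i = 1 ∨ i = 2 := by omega
      have h2 : j = 0 ∨ j = 1 ∨ j = 2 := by omega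
      rcases h1 with rfl | rfl | rfl <;> rcases h2 with rfl | rfl | rfl <;>
        simp_all
    · intro l hl; simp at hl
    · intro l hl; simp at hl
    · rfl
  have hnb : ∀ w, G.Adj l w → ∃ i < 3, (fun i => if i = 0 then a else if i = 1 then b else c) i = w := by
    intro w hw
    rcases (hadj w).1 hw with rfl | rfl | rfl
    · exact ⟨0, by norm_num, by simp⟩
    · exact ⟨1, by norm_num, by simp⟩
    · exact ⟨2, by norm_num, by simp⟩
  apply h0.addLine (by simp) hl hnb
  have := mask_eq (l := l) h0 (x := 0) (y := 1) (z := 2) (by norm_num) (by norm_num) (by norm_num)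
    (by norm_num) (by norm_num) (by norm_num) (by simpa using hN)
  rw [this]; norm_num

theorem run_table {θ : Th} (hG : CubBip G col) (hs : Sat θ G col) (T : List Node)
    (hT : checkTable θ T = true) {nd : Node} (h0 : T[0]? = some nd) (hm : nd.m = 3) (hL : nd.L = [7]) :
    ∃ (k : ℕ) (nd' : Node), T[k]? = some nd' ∧ nd'.x = nd'.m ∧
      (∀ y < nd'.m, cnt nd'.L y y = 3) ∧ Real G col nd'.m nd'.L := by
  apply run hG hs T hT T.length 0 nd (by omega) h0
  rw [hm, hL]
  exact real_start hG

/-! ### leaves -/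

/-- the masks `L` are the masks of the triples `LL` -/
def matchB (m : ℕ) : List ℕ → List (List ℕ) → Bool
  | [], [] => true
  | k :: L, t :: LL => (List.range m).all (fun i => k.testBit i == t.contains i) && matchB m L LL
  | _, _ => false

theorem matchB_length (m : ℕ) : ∀ (L : List ℕ) (LL : List (List ℕ)), matchB m L LL = true →
    L.length = LL.length := by
  intro L
  induction L with
  | nil => intro LL h; cases LL <;> simp_all [matchB]
  | cons k L ih =>
    intro LL h
    cases LL with
    | nil => simp [matchB] at h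
    | cons t LL =>
      rw [matchB, Bool.and_eq_true] at h
      simp [ih LL h.2]

theorem matchB_get (m : ℕ) : ∀ (L : List ℕ) (LL : List (List ℕ)), matchB m L LL = true →
    ∀ (j : ℕ) (h1 : j < L.length) (h2 : j < LL.length) (i : ℕ), i < m →
      ((L[j]).testBit i = true ↔ i ∈ LL[j]) := by
  intro L
  induction L with
  | nil => intro LL h j h1; simp at h1
  | cons k L ih =>
    intro LL h j h1 h2 i hi
    cases LL with
    | nil => simp [matchB] at h
    | cons t LL =>
      rw [matchB, Bool.and_eq_true] at h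
      cases j with
      | zero =>
        simp only [List.getElem_cons_zero]
        have := List.all_eq_true.1 h.1 i (List.mem_range.2 hi)
        rw [beq_iff_eq] at this
        rw [this, List.contains_iff_mem]
      | succ j =>
        simp only [List.getElem_cons_succ]
        exact ih LL h.2 j _ _ i hi

theorem exists_list_of_map_eq {α : Type*} [DecidableEq α] (g : α → ℕ) : ∀ (L : List ℕ) (s : Multiset α),
    s.map g = (L : Multiset ℕ) → ∃ l : List α, (l : Multiset α) = s ∧ l.map g = L := by
  intro L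
  induction L with
  | nil =>
    intro s hs
    refine ⟨[], ?_, rfl⟩
    have : s = 0 := by
      rw [← Multiset.map_eq_zero (f := g)]; exact hs
    rw [this]; rfl
  | cons a L ih =>
    intro s hs
    have hs' : s.map g = a ::ₘ (L : Multiset ℕ) := by rw [hs]; rfl
    rw [← Multiset.map_eq_cons] at hs'
    obtain ⟨b, hb, hgb, hrest⟩ := hs'
    obtain ⟨l, hl, hlg⟩ := ih _ hrest
    refine ⟨b :: l, ?_, by simp [hgb, hlg]⟩
    rw [← Multiset.cons_coe, hl, Multiset.cons_erase hb]

theorem walk_closed (P : V → Prop) (hP : ∀ v w, G.Adj v w → P v → P w) :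
    ∀ {u v : V}, G.Walk u v → P u → P v := by
  intro u v p
  induction p with
  | nil => exact id
  | cons hadj _ ih => exact fun hu => ih (hP _ _ hadj hu)

theorem leaf_iso (hG : CubBip G col) (hR : Real G col m L) (hsat : ∀ y < m, cnt L y y = 3)
    (LL : List (List ℕ)) (hm : matchB m L LL = true) (hl : LL.length = m) (hpos : 0 < m) :
    Nonempty (G ≃g incG LL) := by
  obtain ⟨f, S, h⟩ := hR
  obtain ⟨ls, hls, hmap⟩ := exists_list_of_map_eq _ L S.val h.eq
  have hLlen := matchB_length m L LL hm
  have hlslen : ls.length = L.length := by rw [← hmap, List.length_map]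
  have hnd : ls.Nodup := by
    rw [← Multiset.coe_nodup, hls]; exact S.nodup
  have hmemS : ∀ l, l ∈ S ↔ l ∈ ls := by
    intro l
    rw [← Finset.mem_val, ← hls, Multiset.mem_coe]
  -- every vertex is labelled or in S
  have hclosed : ∀ v w, G.Adj v w → ((∃ i < m, f i = v) ∨ v ∈ S) → ((∃ i < m, f i = w) ∨ w ∈ S) := by
    rintro v w hvw (⟨i, hi, rfl⟩ | hv)
    · right
      have h1 := h.sat hG hi (hsat i hi)
      have h2 : w ∈ G.neighborFinset (f i) := by
        rw [SimpleGraph.mem_neighborFinset]; exact hvw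
      rw [← h1] at h2
      exact (Finset.mem_filter.1 h2).1
    · left
      exact h.nb v hv w hvw
  have hall : ∀ v, (∃ i < m, f i = v) ∨ v ∈ S := by
    intro v
    obtain ⟨p⟩ := hG.conn.preconnected (f 0) v
    exact walk_closed _ hclosed p (Or.inl ⟨0, hpos, rfl⟩)
  have hn1 : ∀ i : Fin LL.length, (i : ℕ) < m := fun i => by have := i.2; omega
  have hn2 : ∀ i : Fin LL.length, (i : ℕ) < ls.length := fun i => by have := i.2; omega
  have hlsS : ∀ i : Fin LL.length, ls[(i : ℕ)]'(hn2 i) ∈ S := fun i => by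
    rw [hmemS]; exact List.getElem_mem _
  let Φ : Fin LL.length ⊕ Fin LL.length → V := fun a =>
    match a with
    | Sum.inl i => f i
    | Sum.inr j => ls[(j : ℕ)]'(hn2 j)
  have hΦ : Function.Bijective Φ := by
    constructor
    · rintro (i | i) (j | j) hij
      · have := h.inj i (hn1 i) j (hn1 j) hij
        rw [Fin.ext this]
      · exfalso
        have h1 := h.colf i (hn1 i)
        have h2 := h.colS _ (hlsS j)
        have h3 : f i = ls[(j : ℕ)]'(hn2 j) := hij
        rw [h3, h2] at h1
        exact absurd h1 (by simp)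
      · exfalso
        have h1 := h.colf j (hn1 j)
        have h2 := h.colS _ (hlsS i)
        have h3 : ls[(i : ℕ)]'(hn2 i) = f j := hij
        rw [← h3, h2] at h1
        exact absurd h1 (by simp)
      · have h3 : ls[(i : ℕ)]'(hn2 i) = ls[(j : ℕ)]'(hn2 j) := hij
        have := (List.Nodup.getElem_inj_iff hnd).1 h3
        rw [Fin.ext this]
    · intro v
      rcases hall v with ⟨i, hi, hv⟩ | hv
      · exact ⟨Sum.inl ⟨i, by omega⟩, hv⟩
      · rw [hmemS, List.mem_iff_getElem] at hv
        obtain ⟨j, hj, hv⟩ := hv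
        exact ⟨Sum.inr ⟨j, by omega⟩, hv⟩
  have hsame : ∀ v w, col v = col w → ¬ G.Adj v w := fun v w hvw hadj => hG.proper v w hadj hvw
  have hkey : ∀ i j : Fin LL.length, G.Adj (ls[(j : ℕ)]'(hn2 j)) (f i) ↔ (i : ℕ) ∈ LL[j] := by
    intro i j
    have h1 := matchB_get m L LL hm j (by have := j.2; omega) j.2 i (hn1 i)
    have h2 := h.tb (l := ls[(j : ℕ)]'(hn2 j)) (hn1 i)
    have h3 : L[(j : ℕ)]'(by have := j.2; omega) = lmask G f m (ls[(j : ℕ)]'(hn2 j)) := by
      simp only [← hmap, List.getElem_map]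
    rw [h3, h2, decide_eq_true_iff] at h1
    exact h1
  refine ⟨(⟨Equiv.ofBijective Φ hΦ, ?_⟩ : incG LL ≃g G).symm⟩
  rintro (i | i) (j | j)
  · constructor
    · intro hadj
      exact absurd hadj (hsame _ _ (by
        show col (f i) = col (f j)
        rw [h.colf i (hn1 i), h.colf j (hn1 j)]))
    · intro hadj
      exact absurd hadj (by simp [incG])
  · constructor
    · intro hadj
      exact (hkey i j).1 (G.symm.symm _ _ hadj)
    · intro hadj
      exact ((hkey i j).2 hadj).symm
  · constructor
    · intro hadj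
      exact (hkey j i).1 hadj
    · intro hadj
      exact (hkey j i).2 hadj
  · constructor
    · intro hadj
      exact absurd hadj (hsame _ _ (by
        show col (ls[(i : ℕ)]'(hn2 i)) = col (ls[(j : ℕ)]'(hn2 j))
        rw [h.colS _ (hlsS i), h.colS _ (hlsS j)]))
    · intro hadj
      exact absurd hadj (by simp [incG])

/-! ### the thirteen graphs -/

/-- `K_{3,3}` -/
def gK33 : List (List ℕ) := [[0, 1, 2], [0, 1, 2], [0, 1, 2]]
/-- the cube `Q_3` -/
def gQ3 : List (List ℕ) := [[0, 1, 2], [0, 1, 3], [0, 2, 3], [1, 2, 3]]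
/-- the Heawood graph -/
def gHeawood : List (List ℕ) :=
  [[0, 1, 2], [0, 3, 4], [0, 5, 6], [1, 3, 5], [1, 4, 6], [2, 3, 6], [2, 4, 5]]
/-- the Pappus graph -/
def gPappus : List (List ℕ) :=
  [[0, 1, 2], [0, 3, 4], [0, 5, 6], [1, 3, 7], [1, 5, 8], [2, 4, 8], [2, 6, 7], [3, 6, 8],
    [4, 5, 7]]
/-- the Tutte-Coxeter graph -/
def gTutteCoxeter : List (List ℕ) :=
  [[0, 1, 2], [0, 3, 4], [0, 5, 6], [1, 7, 8], [1, 9, 10], [2, 11, 12], [2, 13, 14],
    [3, 7, 11], [3, 9, 13], [4, 8, 12], [4, 10, 14], [5, 7, 14], [5, 9, 12], [6, 8, 13],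
    [6, 10, 11]]
/-- the Moebius ladder on 10 vertices -/
def gMoebius10 : List (List ℕ) := [[0, 1, 2], [0, 1, 3], [0, 2, 4], [1, 3, 4], [2, 3, 4]]
/-- the Franklin graph (12 vertices) -/
def gFranklin : List (List ℕ) :=
  [[0, 1, 2], [0, 1, 3], [0, 4, 5], [1, 4, 5], [2, 3, 4], [2, 3, 5]]
/-- the Moebius-Kantor graph (16 vertices) -/
def gMoebiusKantor : List (List ℕ) :=
  [[0, 1, 2], [0, 3, 4], [0, 5, 6], [1, 3, 5], [1, 4, 7], [2, 4, 6], [2, 5, 7], [3, 6, 7]]
/-- a graph on 16 vertices -/
def gR16 : List (List ℕ) :=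
  [[0, 1, 2], [0, 1, 3], [0, 4, 5], [1, 4, 5], [2, 3, 6], [2, 3, 7], [4, 6, 7], [5, 6, 7]]
/-- the Dyck graph (32 vertices) -/
def gDyck : List (List ℕ) :=
  [[0, 1, 2], [0, 3, 4], [0, 5, 6], [1, 3, 7], [1, 8, 9], [2, 5, 10], [2, 8, 11],
    [3, 12, 13], [4, 6, 14], [4, 11, 12], [5, 13, 15], [6, 9, 15], [7, 9, 14], [7, 10, 13],
    [8, 12, 15], [10, 11, 14]]
/-- first of the two graphs on 20 vertices (the Desargues graph and its cospectral mate) -/
def gDesarguesA : List (List ℕ) :=
  [[0, 1, 2], [0, 3, 4], [0, 5, 6], [1, 3, 5], [1, 7, 8], [2, 4, 7], [2, 6, 8], [3, 7, 9],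
    [4, 6, 9], [5, 8, 9]]
/-- second of the two graphs on 20 vertices (the Desargues graph and its cospectral mate) -/
def gDesarguesB : List (List ℕ) :=
  [[0, 1, 2], [0, 3, 4], [0, 5, 6], [1, 3, 7], [1, 5, 8], [2, 4, 7], [2, 6, 8], [3, 5, 9],
    [4, 6, 9], [7, 8, 9]]
/-- the graph F26A -/
def gF26A : List (List ℕ) :=
  [[0, 1, 2], [0, 3, 4], [0, 5, 6], [1, 3, 7], [1, 8, 9], [2, 5, 10], [2, 8, 11],
    [3, 10, 12], [4, 6, 11], [4, 8, 12], [5, 9, 12], [6, 7, 9], [7, 10, 11]]

/-- the list of the thirteen graphs -/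
def all13 : List (List (List ℕ)) :=
  [gK33, gQ3, gHeawood, gPappus, gTutteCoxeter, gMoebius10, gFranklin, gMoebiusKantor, gR16,
    gDyck, gDesarguesA, gDesarguesB, gF26A]

def leavesOk (T : List Node) : Bool :=
  T.all (fun nd => !(Nat.beq nd.x nd.m) ||
    all13.any (fun LL => matchB nd.m nd.L LL && Nat.beq LL.length nd.m && Nat.blt 0 nd.m))

def startOk (T : List Node) : Bool := match T with
  | [] => false
  | nd :: _ => Nat.beq nd.m 3 && (nd.L == [7])

/-- every connected cubic bipartite graph satisfying the theory `θ` is one of the thirteen -/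
def Good.{u} (θ : Th) : Prop :=
  ∀ (V : Type u) [Fintype V] [DecidableEq V] (G : SimpleGraph V) [DecidableRel G.Adj]
    (col : V → Bool), CubBip G col → Sat θ G col → ∃ LL ∈ all13, Nonempty (G ≃g incG LL)

theorem good_of_table.{u} (θ : Th) (T : List Node) (h1 : checkTable θ T = true)
    (h2 : leavesOk T = true) (h3 : startOk T = true) : Good.{u} θ := by
  intro V _ _ G _ col hG hs
  cases T with
  | nil => simp [startOk] at h3
  | cons nd T =>
    rw [startOk, Bool.and_eq_true, beq_iff, beq_iff_eq] at h3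
    obtain ⟨k, nd', hk, hx, hsat, hR⟩ := run_table hG hs (nd :: T) h1 (nd := nd) rfl h3.1 h3.2
    unfold leavesOk at h2
    rw [List.all_eq_true] at h2
    have hmem : nd' ∈ nd :: T := List.mem_of_getElem? hk
    have h4 := h2 nd' hmem
    rw [hx] at h4
    have h5 : (!(Nat.beq nd'.m nd'.m)) = false := by simp
    rw [h5, Bool.false_or, List.any_eq_true] at h4
    obtain ⟨LL, hLL, h6⟩ := h4
    rw [Bool.and_eq_true, Bool.and_eq_true, beq_iff, blt_iff] at h6
    exact ⟨LL, hLL, leaf_iso hG hR hsat LL h6.1.1 h6.1.2 h6.2⟩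

end R29.CB
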