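import Pool.Agent.R29.CB.Mach
set_option linter.all false

/-! Soundness of the certificate checker. -/

namespace R29.CB

open Finset

variable {V : Type*} [Fintype V] [DecidableEq V]

/-! ### bit sums -/

def bsum (b : ℕ → Bool) : ℕ → ℕ
  | 0 => 0
  | n + 1 => bsum b n + (bif b n then 2 ^ n else 0)

theorem bsum_lt (b : ℕ → Bool) (n : ℕ) : bsum b n < 2 ^ n := by
  induction n with
  | zero => simp [bsum]
  | succ n ih =>
    simp only [bsum, pow_succ]
    cases b n <;> simp <;> omega

theorem testBit_bsum (b : ℕ → Bool) (n i : ℕ) : (bsum b n).testBit i = (decide (i < n) && b i) := by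
  induction n with
  | zero => simp [bsum]
  | succ n ih =>
    simp only [bsum]
    have hlt := bsum_lt b n
    cases hb : b n with
    | false =>
      simp only [cond_false, add_zero, ih]
      by_cases h : i < n
      · simp [h, Nat.lt_succ_of_lt h]
      · by_cases h2 : i = n
        · subst h2; simp [hb]
        · have : ¬ i < n + 1 := by omega
          simp [h, this]
    | true =>
      simp only [cond_true]
      rw [add_comm]
      rcases lt_trichotomy i n with h | h | h
      · rw [Nat.testBit_two_pow_add_gt h, ih]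
        simp [h, Nat.lt_succ_of_lt h]
      · subst h
        rw [Nat.testBit_two_pow_add_eq, ih]
        simp [hb]
      · have h1 : 2 ^ n + bsum b n < 2 ^ i := by
          have : 2 ^ (n + 1) ≤ 2 ^ i := Nat.pow_le_pow_right (by norm_num) h
          rw [pow_succ] at this
          omega
        rw [Nat.testBit_lt_two_pow h1]
        have : ¬ i < n + 1 := by omega
        simp [this]

theorem bsum_succ' (b : ℕ → Bool) (n : ℕ) :
    bsum b (n + 1) = (bif b 0 then 1 else 0) + 2 * bsum (fun i => b (i + 1)) n := by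
  induction n with
  | zero => simp [bsum]
  | succ n ih =>
    have : bsum b (n + 1 + 1) = bsum b (n + 1) + (bif b (n + 1) then 2 ^ (n + 1) else 0) := rfl
    rw [this, ih]
    simp only [bsum]
    cases b (n + 1) <;> simp <;> ring

theorem bsum_congr (b b' : ℕ → Bool) (n : ℕ) (h : ∀ i < n, b i = b' i) : bsum b n = bsum b' n := by
  induction n with
  | zero => rfl
  | succ n ih =>
    simp only [bsum]
    rw [ih (fun i hi => h i (by omega)), h n (by omega)]

theorem bsum_eq_sum (b : ℕ → Bool) (n : ℕ) :
    bsum b n = ∑ i ∈ (range n).filter (fun i => b i = true), 2 ^ i := by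
  induction n with
  | zero => simp [bsum]
  | succ n ih =>
    simp only [bsum]
    rw [ih, Finset.range_add_one, Finset.filter_insert]
    cases hb : b n <;> simp [add_comm]

theorem pull_eq (σ : List ℕ) (k : ℕ) :
    pull σ k = bsum (fun j => k.testBit (σ.getD j 0)) σ.length := by
  induction σ with
  | nil => rfl
  | cons a σ ih =>
    rw [pull, List.length_cons, bsum_succ', ih]
    simp

/-! ### realizations -/

/-- mask of the line `l` -/
def lmask (G : SimpleGraph V) [DecidableRel G.Adj] (f : ℕ → V) (m : ℕ) (l : V) : ℕ :=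
  bsum (fun i => decide (G.Adj l (f i))) m

structure RD (G : SimpleGraph V) [DecidableRel G.Adj] (col : V → Bool) (f : ℕ → V)
    (S : Finset V) (m : ℕ) (L : List ℕ) : Prop where
  colf : ∀ i < m, col (f i) = true
  inj : ∀ i < m, ∀ j < m, f i = f j → i = j
  colS : ∀ l ∈ S, col l = false
  nb : ∀ l ∈ S, ∀ w, G.Adj l w → ∃ i < m, f i = w
  eq : S.val.map (lmask G f m) = (L : Multiset ℕ)

def Real (G : SimpleGraph V) [DecidableRel G.Adj] (col : V → Bool) (m : ℕ) (L : List ℕ) : Prop :=
  ∃ f S, RD G col f S m L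

variable {G : SimpleGraph V} [DecidableRel G.Adj] {col : V → Bool} {f : ℕ → V} {S : Finset V}
  {m : ℕ} {L : List ℕ}

theorem lsum_eq_map (g : ℕ → ℕ) (L : List ℕ) : lsum g L = (L.map g).sum := by
  induction L with
  | nil => rfl
  | cons a L ih => simp [lsum, ih]

theorem RD.lsum (h : RD G col f S m L) (g : ℕ → ℕ) : lsum g L = ∑ l ∈ S, g (lmask G f m l) := by
  rw [lsum_eq_map]
  have : ((L : Multiset ℕ).map g).sum = (L.map g).sum := by simp
  rw [← this, ← h.eq, Multiset.map_map]
  rfl

theorem RD.tb (h : RD G col f S m L) {l : V} {x : ℕ} (hx : x < m) :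
    (lmask G f m l).testBit x = decide (G.Adj l (f x)) := by
  unfold lmask
  rw [testBit_bsum]
  simp [hx]

theorem RD.cnt_eq (h : RD G col f S m L) {x y : ℕ} (hx : x < m) (hy : y < m) :
    cnt L x y = (S.filter (fun l => G.Adj l (f x) ∧ G.Adj l (f y))).card := by
  unfold cnt
  rw [h.lsum, Finset.card_filter]
  refine Finset.sum_congr rfl fun l _ => ?_
  rw [h.tb hx, h.tb hy]
  by_cases h1 : G.Adj l (f x) <;> by_cases h2 : G.Adj l (f y) <;> simp [h1, h2]

theorem RD.sub (h : RD G col f S m L) {x : ℕ} :
    (S.filter (fun l => G.Adj l (f x))) ⊆ G.neighborFinset (f x) := by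
  intro l hl
  rw [Finset.mem_filter] at hl
  rw [SimpleGraph.mem_neighborFinset]
  exact hl.2.symm

theorem RD.cnt_self (h : RD G col f S m L) {x : ℕ} (hx : x < m) :
    cnt L x x = (S.filter (fun l => G.Adj l (f x))).card := by
  rw [h.cnt_eq hx hx]; simp

theorem RD.sat (hG : CubBip G col) (h : RD G col f S m L) {x : ℕ} (hx : x < m)
    (h3 : cnt L x x = 3) : S.filter (fun l => G.Adj l (f x)) = G.neighborFinset (f x) := by
  apply Finset.eq_of_subset_of_card_le h.sub
  rw [← h.cnt_self hx, h3, hG.reg]

theorem RD.lam_eq (hG : CubBip G col) (h : RD G col f S m L) {x y : ℕ} (hx : x < m) (hy : y < m)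
    (h3 : cnt L x x = 3) : lam G (f x) (f y) = cnt L x y := by
  rw [h.cnt_eq hx hy]
  unfold lam
  congr 1
  rw [← h.sat hG hx h3]
  ext l
  simp only [Finset.mem_inter, Finset.mem_filter, SimpleGraph.mem_neighborFinset]
  constructor
  · rintro ⟨⟨h1, h2⟩, h4⟩; exact ⟨h1, h2, h4.symm⟩
  · rintro ⟨h1, h2, h4⟩; exact ⟨⟨h1, h2⟩, h4.symm⟩

theorem pc_eq (k l m : ℕ) : pc k l m = ((range m).filter (fun i => k.testBit i = true ∧ l.testBit i = true)).card := by
  induction m with
  | zero => simp [pc]
  | succ m ih =>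
    rw [pc, ih, Finset.range_add_one, Finset.filter_insert]
    cases k.testBit m <;> cases l.testBit m <;> simp

theorem RD.pc_eq (h : RD G col f S m L) {k l : V} (hk : k ∈ S) :
    pc (lmask G f m k) (lmask G f m l) m = lam G k l := by
  rw [CB.pc_eq]
  unfold lam
  rw [← Finset.card_image_of_injOn (f := f) (s := (range m).filter _)]
  · congr 1
    ext w
    simp only [Finset.mem_image, Finset.mem_filter, Finset.mem_range, Finset.mem_inter,
      SimpleGraph.mem_neighborFinset]
    constructor
    · rintro ⟨i, ⟨hi, h1, h2⟩, rfl⟩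
      rw [h.tb hi] at h1 h2
      exact ⟨by simpa using h1, by simpa using h2⟩
    · rintro ⟨h1, h2⟩
      obtain ⟨i, hi, rfl⟩ := h.nb k hk w h1
      exact ⟨i, ⟨hi, by rw [h.tb hi]; simpa using h1, by rw [h.tb hi]; simpa using h2⟩, rfl⟩
  · intro i hi j hj hij
    simp only [Finset.coe_filter, Finset.mem_range, Set.mem_setOf_eq] at hi hj
    exact h.inj i hi.1 j hj.1 hij

theorem RD.SS_eq (h : RD G col f S m L) {x y : ℕ} (hx : x < m) (hy : y < m) :
    SS m L x y = ∑ a ∈ S.filter (fun l => G.Adj l (f x)), ∑ b ∈ S.filter (fun l => G.Adj l (f y)), lam G a b := by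
  unfold SS
  rw [h.lsum, Finset.sum_filter]
  refine Finset.sum_congr rfl fun a ha => ?_
  rw [h.tb hx]
  by_cases h1 : G.Adj a (f x)
  · simp only [h1, decide_true, cond_true, if_true]
    rw [h.lsum, Finset.sum_filter]
    refine Finset.sum_congr rfl fun b hb => ?_
    rw [h.tb hy]
    by_cases h2 : G.Adj b (f y)
    · simp only [h2, decide_true, cond_true, if_true]
      exact h.pc_eq ha
    · simp [h2]
  · simp [h1]

theorem RD.SS_le (hG : CubBip G col) (h : RD G col f S m L) {x y : ℕ} (hx : x < m) (hy : y < m)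
    (h3 : cnt L x x = 3) : SS m L x y ≤ W4 G (f x) (f y) := by
  rw [h.SS_eq hx hy, h.sat hG hx h3]
  unfold W4
  refine Finset.sum_le_sum fun a _ => ?_
  exact Finset.sum_le_sum_of_subset h.sub

theorem RD.SS_W4 (hG : CubBip G col) (h : RD G col f S m L) {x y : ℕ} (hx : x < m) (hy : y < m)
    (h3 : cnt L x x = 3) (h3' : cnt L y y = 3) : SS m L x y = W4 G (f x) (f y) := by
  rw [h.SS_eq hx hy, h.sat hG hx h3, h.sat hG hy h3']
  rfl

def Sat (θ : Th) (G : SimpleGraph V) [DecidableRel G.Adj] (col : V → Bool) : Prop :=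
  (∀ x, col x = true → W4 G x x = θ.D9) ∧
  (θ.full = true → (univ.filter (fun x => col x = true)).card = θ.v ∧
    ∀ x y, col x = true → col y = true → x ≠ y → W4 G x y = θ.s * lam G x y + θ.c)

theorem RD.card_le (h : RD G col f S m L) : m ≤ (univ.filter (fun x => col x = true)).card := by
  have : (Finset.image f (range m)).card = m := by
    rw [Finset.card_image_of_injOn, Finset.card_range]
    intro i hi j hj hij
    simp only [Finset.coe_range, Set.mem_Iio] at hi hj
    exact h.inj i hi j hj hij
  rw [← this]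
  apply Finset.card_le_card
  intro w hw
  rw [Finset.mem_image] at hw
  obtain ⟨i, hi, rfl⟩ := hw
  rw [Finset.mem_range] at hi
  simp [h.colf i hi]

end R29.CB
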