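import Pool.Agent.R29.CB.Sound
set_option linter.all false

/-! Soundness of the certificate checker, part 2: kills, relabelling and extension steps. -/

namespace R29.CB

open Finset

variable {V : Type*} [Fintype V] [DecidableEq V]
variable {G : SimpleGraph V} [DecidableRel G.Adj] {col : V → Bool} {f : ℕ → V} {S : Finset V}
  {m : ℕ} {L : List ℕ}

theorem blt_iff (a b : ℕ) : Nat.blt a b = true ↔ a < b := by
  simp [Nat.blt_eq]

theorem beq_iff (a b : ℕ) : Nat.beq a b = true ↔ a = b := by
  simp [Nat.beq_eq]

theorem bne_iff (a b : ℕ) : (!(Nat.beq a b)) = true ↔ a ≠ b := by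
  rw [Bool.not_eq_true', ← Bool.not_eq_true, beq_iff]

/-- kills are sound -/
theorem kill_sound {θ : Th} (hG : CubBip G col) (hs : Sat θ G col) (h : RD G col f S m L)
    (T : List Node) (i : ℕ) (c : Cert) (hc : checkCert θ T i m L c = true) :
    ∃ j nd, T[j]? = some nd ∧ i < j ∧ ∃ σ, isoB σ m L nd.m nd.L = true := by
  cases c with
  | big =>
    exfalso
    simp only [checkCert, Bool.and_eq_true, blt_iff] at hc
    have := h.card_le
    have := (hs.2 hc.1).1
    omega
  | dia a =>
    exfalso
    simp only [checkCert, Bool.and_eq_true, blt_iff, beq_iff, bne_iff] at hc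
    obtain ⟨⟨ha, h3⟩, hne⟩ := hc
    apply hne
    rw [h.SS_W4 hG ha ha h3 h3]
    exact hs.1 _ (h.colf a ha)
  | gt a b =>
    exfalso
    simp only [checkCert, Bool.and_eq_true, blt_iff, beq_iff, bne_iff] at hc
    obtain ⟨⟨⟨⟨⟨hfull, ha⟩, hb⟩, hab⟩, h3⟩, hlt⟩ := hc
    have h1 := h.SS_le hG ha hb h3
    have h2 := (hs.2 hfull).2 (f a) (f b) (h.colf a ha) (h.colf b hb)
      (fun he => hab (h.inj a ha b hb he))
    rw [h.lam_eq hG ha hb h3] at h2
    omega
  | ne a b =>
    exfalso
    simp only [checkCert, Bool.and_eq_true, blt_iff, beq_iff, bne_iff] at hc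
    obtain ⟨⟨⟨⟨⟨⟨hfull, ha⟩, hb⟩, hab⟩, h3⟩, h3'⟩, hne⟩ := hc
    have h1 := h.SS_W4 hG ha hb h3 h3'
    have h2 := (hs.2 hfull).2 (f a) (f b) (h.colf a ha) (h.colf b hb)
      (fun he => hab (h.inj a ha b hb he))
    rw [h.lam_eq hG ha hb h3] at h2
    apply hne
    omega
  | go j σ =>
    simp only [checkCert] at hc
    split at hc
    · rename_i nd hnd
      rw [Bool.and_eq_true, blt_iff] at hc
      exact ⟨j, nd, hnd, hc.1, σ, hc.2⟩
    · exact absurd hc (by simp)

theorem allLt_iff (m : ℕ) (σ : List ℕ) : allLt m σ = true ↔ ∀ a ∈ σ, a < m := by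
  induction σ with
  | nil => simp [allLt]
  | cons a σ ih => simp [allLt, ih, blt_iff]

theorem notMem_iff (a : ℕ) (σ : List ℕ) : notMem a σ = true ↔ a ∉ σ := by
  induction σ with
  | nil => simp [notMem]
  | cons b σ ih =>
    rw [notMem, Bool.and_eq_true, bne_iff, ih]
    simp

theorem nodupB_iff (σ : List ℕ) : nodupB σ = true ↔ σ.Nodup := by
  induction σ with
  | nil => simp [nodupB]
  | cons a σ ih => rw [nodupB, Bool.and_eq_true, notMem_iff, ih, List.nodup_cons]

/-- relabelling is sound -/
theorem iso_sound (h : RD G col f S m L) {σ : List ℕ} {m2 : ℕ} {L2 : List ℕ}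
    (hi : isoB σ m L m2 L2 = true) : Real G col m2 L2 := by
  simp only [isoB, Bool.and_eq_true, beq_iff, allLt_iff, nodupB_iff] at hi
  obtain ⟨⟨⟨⟨hm, hlen⟩, hlt⟩, hnd⟩, hperm⟩ := hi
  subst hm
  rw [List.isPerm_iff] at hperm
  have hget : ∀ j < m2, σ.getD j 0 < m2 := by
    intro j hj
    rw [List.getD_eq_getElem _ _ (by omega)]
    exact hlt _ (List.getElem_mem _)
  have hinjσ : ∀ i < m2, ∀ j < m2, σ.getD i 0 = σ.getD j 0 → i = j := by
    intro i hi j hj hij
    rw [List.getD_eq_getElem _ _ (by omega), List.getD_eq_getElem _ _ (by omega)] at hij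
    exact (List.Nodup.getElem_inj_iff hnd).1 hij
  have hsurj : ∀ i < m2, ∃ j < m2, σ.getD j 0 = i := by
    have hinj' : Set.InjOn (fun j => σ.getD j 0) (range m2 : Set ℕ) := by
      intro i hi j hj hij
      simp only [Finset.coe_range, Set.mem_Iio] at hi hj
      exact hinjσ i hi j hj hij
    have himg : (range m2).image (fun j => σ.getD j 0) = range m2 := by
      apply Finset.eq_of_subset_of_card_le
      · intro a ha
        rw [Finset.mem_image] at ha
        obtain ⟨j, hj, rfl⟩ := ha
        rw [Finset.mem_range] at hj ⊢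
        exact hget j hj
      · rw [Finset.card_image_of_injOn hinj']
    intro i hi
    have : i ∈ (range m2).image (fun j => σ.getD j 0) := by
      rw [himg]; exact Finset.mem_range.2 hi
    rw [Finset.mem_image] at this
    obtain ⟨j, hj, hji⟩ := this
    exact ⟨j, Finset.mem_range.1 hj, hji⟩
  refine ⟨fun j => f (σ.getD j 0), S, ?_, ?_, h.colS, ?_, ?_⟩
  · intro i hi
    exact h.colf _ (hget i hi)
  · intro i hi j hj hij
    exact hinjσ i hi j hj (h.inj _ (hget i hi) _ (hget j hj) hij)
  · intro l hl w hw
    obtain ⟨i, hi, rfl⟩ := h.nb l hl w hw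
    obtain ⟨j, hj, rfl⟩ := hsurj i hi
    exact ⟨j, hj, rfl⟩
  · have h1 : S.val.map (lmask G (fun j => f (σ.getD j 0)) m2) = (S.val.map (lmask G f m2)).map (pull σ) := by
      rw [Multiset.map_map]
      apply Multiset.map_congr rfl
      intro l _
      rw [Function.comp_apply, pull_eq, hlen]
      unfold lmask
      apply bsum_congr
      intro i hi
      have := h.tb (l := l) (hget i hi)
      unfold lmask at this
      rw [this]
    rw [h1, h.eq, Multiset.map_coe]
    exact Multiset.coe_eq_coe.2 hperm

/-- adding a new label -/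
theorem RD.ext (h : RD G col f S m L) {w : V} (hw : col w = true) (hn : ∀ i < m, f i ≠ w) :
    RD G col (Function.update f m w) S (m + 1) L := by
  have hlt : ∀ i < m, Function.update f m w i = f i := by
    intro i hi
    rw [Function.update_of_ne (by omega)]
  refine ⟨?_, ?_, h.colS, ?_, ?_⟩
  · intro i hi
    by_cases him : i = m
    · subst him; simpa using hw
    · rw [hlt i (by omega)]; exact h.colf i (by omega)
  · intro i hi j hj hij
    by_cases him : i = m
    · by_cases hjm : j = m
      · omega
      · exfalso
        subst him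
        rw [Function.update_self, hlt j (by omega)] at hij
        exact hn j (by omega) hij.symm
    · by_cases hjm : j = m
      · exfalso
        subst hjm
        rw [Function.update_self, hlt i (by omega)] at hij
        exact hn i (by omega) hij
      · rw [hlt i (by omega), hlt j (by omega)] at hij
        exact h.inj i (by omega) j (by omega) hij
  · intro l hl u hu
    obtain ⟨i, hi, rfl⟩ := h.nb l hl u hu
    exact ⟨i, by omega, hlt i hi⟩
  · rw [← h.eq]
    apply Multiset.map_congr rfl
    intro l hl
    unfold lmask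
    rw [bsum]
    have h1 : decide (G.Adj l (Function.update f m w m)) = false := by
      rw [Function.update_self, decide_eq_false_iff_not]
      intro hadj
      obtain ⟨i, hi, hiw⟩ := h.nb l hl w hadj
      exact hn i hi hiw
    rw [h1]
    simp only [cond_false, add_zero]
    apply bsum_congr
    intro i hi
    rw [hlt i hi]

/-- adding a new line all of whose points are labelled -/
theorem RD.addLine (h : RD G col f S m L) {l : V} (hl : l ∉ S) (hc : col l = false)
    (hn : ∀ w, G.Adj l w → ∃ i < m, f i = w) {k : ℕ} (hk : lmask G f m l = k) :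
    Real G col m (k :: L) := by
  refine ⟨f, insert l S, h.colf, h.inj, ?_, ?_, ?_⟩
  · intro l' hl'
    rcases Finset.mem_insert.1 hl' with h1 | h1
    · subst h1; exact hc
    · exact h.colS l' h1
  · intro l' hl'
    rcases Finset.mem_insert.1 hl' with h1 | h1
    · subst h1; exact hn
    · exact h.nb l' h1
  · rw [Finset.insert_val_of_notMem hl, Multiset.map_cons, h.eq, hk]
    rfl

theorem mask_eq (h : RD G col f S m L) {l : V} {x y z : ℕ} (hx : x < m) (hy : y < m) (hz : z < m)
    (hxy : x ≠ y) (hxz : x ≠ z) (hyz : y ≠ z)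
    (hN : G.neighborFinset l = {f x, f y, f z}) : lmask G f m l = 2 ^ x + 2 ^ y + 2 ^ z := by
  unfold lmask
  rw [bsum_eq_sum]
  have : (range m).filter (fun i => decide (G.Adj l (f i)) = true) = {x, y, z} := by
    ext i
    simp only [Finset.mem_filter, Finset.mem_range, decide_eq_true_eq, Finset.mem_insert,
      Finset.mem_singleton]
    rw [← SimpleGraph.mem_neighborFinset, hN]
    simp only [Finset.mem_insert, Finset.mem_singleton]
    constructor
    · rintro ⟨hi, h1 | h1 | h1⟩
      · exact Or.inl (h.inj i hi x hx h1)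
      · exact Or.inr (Or.inl (h.inj i hi y hy h1))
      · exact Or.inr (Or.inr (h.inj i hi z hz h1))
    · rintro (rfl | rfl | rfl)
      · exact ⟨hx, Or.inl rfl⟩
      · exact ⟨hy, Or.inr (Or.inl rfl)⟩
      · exact ⟨hz, Or.inr (Or.inr rfl)⟩
  rw [this, Finset.sum_insert, Finset.sum_pair hyz, add_assoc]
  simp [hxy, hxz]

theorem mem_pairsL : ∀ (U : List ℕ) (a b : ℕ), a ∈ U → b ∈ U → a ≠ b →
    (a, b) ∈ pairsL U ∨ (b, a) ∈ pairsL U := by
  intro U
  induction U with
  | nil => intro a b ha; simp at ha
  | cons c U ih =>
    intro a b ha hb hab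
    simp only [pairsL, List.mem_append, List.mem_map]
    rcases List.mem_cons.1 ha with h1 | h1
    · subst h1
      rcases List.mem_cons.1 hb with h2 | h2
      · exact absurd h2.symm hab
      · exact Or.inl (Or.inl ⟨b, h2, rfl⟩)
    · rcases List.mem_cons.1 hb with h2 | h2
      · subst h2
        exact Or.inr (Or.inl ⟨a, h1, rfl⟩)
      · rcases ih a b h1 h2 hab with h3 | h3
        · exact Or.inl (Or.inr h3)
        · exact Or.inr (Or.inr h3)

theorem mem_unsatL (L : List ℕ) (m x y : ℕ) : y ∈ unsatL L m x ↔ y < m ∧ y ≠ x ∧ cnt L y y < 3 := by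
  unfold unsatL
  rw [List.mem_filter, List.mem_range, Bool.and_eq_true, bne_iff, blt_iff]

/-- the extension step -/
theorem step (hG : CubBip G col) (h : RD G col f S m L) {x : ℕ} (hx : x < m)
    (h3 : cnt L x x < 3) : ∃ ch ∈ children L m x, Real G col ch.1 (ch.2 :: L) := by
  -- a new line through `f x`
  have hcard : (S.filter (fun l => G.Adj l (f x))).card < (G.neighborFinset (f x)).card := by
    rw [← h.cnt_self hx, hG.reg]; exact h3
  obtain ⟨l, hl1, hl2⟩ : ∃ l, l ∈ G.neighborFinset (f x) ∧ l ∉ S.filter (fun l => G.Adj l (f x)) := by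
    by_contra hcon
    push Not at hcon
    exact absurd (Finset.card_le_card hcon) (by omega)
  rw [SimpleGraph.mem_neighborFinset] at hl1
  have hlS : l ∉ S := fun hc => hl2 (Finset.mem_filter.2 ⟨hc, hl1.symm⟩)
  have hcl : col l = false := by
    have := hG.proper _ _ hl1
    rw [h.colf x hx] at this
    cases hc : col l
    · rfl
    · exact absurd hc.symm this
  -- neighbours of `l`
  have hNcard := hG.reg l
  have hfx : f x ∈ G.neighborFinset l := by
    rw [SimpleGraph.mem_neighborFinset]; exact hl1.symm
  have hcard2 : ((G.neighborFinset l).erase (f x)).card = 2 := by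
    rw [Finset.card_erase_of_mem hfx, hNcard]
  obtain ⟨u, w, huw, hN'⟩ := Finset.card_eq_two.1 hcard2
  have hN : G.neighborFinset l = {f x, u, w} := by
    rw [← Finset.insert_erase hfx, hN']
  have hu : u ≠ f x := by
    have : u ∈ (G.neighborFinset l).erase (f x) := by rw [hN']; simp
    exact (Finset.mem_erase.1 this).1
  have hw : w ≠ f x := by
    have : w ∈ (G.neighborFinset l).erase (f x) := by rw [hN']; simp
    exact (Finset.mem_erase.1 this).1
  have hadj : ∀ v, G.Adj l v ↔ v = f x ∨ v = u ∨ v = w := by
    intro v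
    rw [← SimpleGraph.mem_neighborFinset, hN]
    simp
  have hcolv : ∀ v, G.Adj l v → col v = true := by
    intro v hv
    have := hG.proper _ _ hv
    rw [hcl] at this
    cases hc : col v
    · exact absurd hc.symm this
    · rfl
  have hcu : col u = true := hcolv u ((hadj u).2 (Or.inr (Or.inl rfl)))
  have hcw : col w = true := hcolv w ((hadj w).2 (Or.inr (Or.inr rfl)))
  -- labelled points of `l` are unsaturated
  have huns : ∀ y < m, G.Adj l (f y) → f y ≠ f x → y ∈ unsatL L m x := by
    intro y hy hay hne
    rw [mem_unsatL]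
    refine ⟨hy, fun he => hne (by rw [he]), ?_⟩
    have hle : cnt L y y ≤ 3 := by
      rw [h.cnt_self hy, ← hG.reg (f y)]
      exact Finset.card_le_card h.sub
    rcases Nat.lt_or_ge (cnt L y y) 3 with h4 | h4
    · exact h4
    · exfalso
      have h5 := h.sat hG hy (by omega)
      have h6 : l ∈ G.neighborFinset (f y) := by
        rw [SimpleGraph.mem_neighborFinset]; exact hay.symm
      rw [← h5] at h6
      exact hlS (Finset.mem_filter.1 h6).1
  by_cases hul : ∃ y < m, f y = u
  · obtain ⟨y, hy, rfl⟩ := hul
    have hyU := huns y hy ((hadj _).2 (Or.inr (Or.inl rfl))) hu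
    by_cases hwl : ∃ z < m, f z = w
    · obtain ⟨z, hz, rfl⟩ := hwl
      have hzU := huns z hz ((hadj _).2 (Or.inr (Or.inr rfl))) hw
      have hxy : x ≠ y := fun he => hu (by rw [he])
      have hxz : x ≠ z := fun he => hw (by rw [he])
      have hyz : y ≠ z := fun he => huw (by rw [he])
      have hnb : ∀ v, G.Adj l v → ∃ i < m, f i = v := by
        intro v hv
        rcases (hadj v).1 hv with rfl | rfl | rfl
        · exact ⟨x, hx, rfl⟩
        · exact ⟨y, hy, rfl⟩
        · exact ⟨z, hz, rfl⟩
      have hmk := mask_eq h hx hy hz hxy hxz hyz hN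
      rcases mem_pairsL _ y z hyU hzU hyz with hp | hp
      · refine ⟨(m, 2 ^ x + 2 ^ y + 2 ^ z), ?_, h.addLine hlS hcl hnb hmk⟩
        unfold children
        rw [List.mem_append, List.mem_map]
        exact Or.inl ⟨(y, z), hp, rfl⟩
      · refine ⟨(m, 2 ^ x + 2 ^ z + 2 ^ y), ?_, h.addLine hlS hcl hnb (by rw [hmk]; ring)⟩
        unfold children
        rw [List.mem_append, List.mem_map]
        exact Or.inl ⟨(z, y), hp, rfl⟩
    · push Not at hwl
      have h' := h.ext hcw hwl
      have hfx' : Function.update f m w x = f x := Function.update_of_ne (by omega) _ _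
      have hfy' : Function.update f m w y = f y := Function.update_of_ne (by omega) _ _
      have hfm' : Function.update f m w m = w := Function.update_self _ _ _
      have hxy : x ≠ y := fun he => hu (by rw [he])
      refine ⟨(m + 1, 2 ^ x + 2 ^ y + 2 ^ m), ?_, h'.addLine hlS hcl ?_ ?_⟩
      · unfold children
        rw [List.mem_append, List.mem_append]
        exact Or.inr (Or.inl (List.mem_map.2 ⟨y, hyU, rfl⟩))
      · intro v hv
        rcases (hadj v).1 hv with rfl | rfl | rfl
        · exact ⟨x, by omega, hfx'⟩
        · exact ⟨y, by omega, hfy'⟩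
        · exact ⟨m, by omega, hfm'⟩
      · apply mask_eq h' (by omega) (by omega) (by omega) hxy (by omega) (by omega)
        rw [hfx', hfy', hfm']; exact hN
  · push Not at hul
    by_cases hwl : ∃ z < m, f z = w
    · obtain ⟨z, hz, rfl⟩ := hwl
      have hzU := huns z hz ((hadj _).2 (Or.inr (Or.inr rfl))) hw
      have h' := h.ext hcu hul
      have hfx' : Function.update f m u x = f x := Function.update_of_ne (by omega) _ _
      have hfz' : Function.update f m u z = f z := Function.update_of_ne (by omega) _ _
      have hfm' : Function.update f m u m = u := Function.update_self _ _ _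
      have hxz : x ≠ z := fun he => hw (by rw [he])
      refine ⟨(m + 1, 2 ^ x + 2 ^ z + 2 ^ m), ?_, h'.addLine hlS hcl ?_ ?_⟩
      · unfold children
        rw [List.mem_append, List.mem_append]
        exact Or.inr (Or.inl (List.mem_map.2 ⟨z, hzU, rfl⟩))
      · intro v hv
        rcases (hadj v).1 hv with rfl | rfl | rfl
        · exact ⟨x, by omega, hfx'⟩
        · exact ⟨m, by omega, hfm'⟩
        · exact ⟨z, by omega, hfz'⟩
      · apply mask_eq h' (by omega) (by omega) (by omega) hxz (by omega) (by omega)
        rw [hfx', hfz', hfm', hN]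
        ext v
        simp only [Finset.mem_insert, Finset.mem_singleton]
        tauto
    · push Not at hwl
      have h' := h.ext hcu hul
      have hwl' : ∀ i < m + 1, Function.update f m u i ≠ w := by
        intro i hi
        by_cases him : i = m
        · subst him; rw [Function.update_self]; exact huw
        · rw [Function.update_of_ne him]; exact hwl i (by omega)
      have h'' := h'.ext hcw hwl'
      have hfx' : Function.update (Function.update f m u) (m + 1) w x = f x := by
        rw [Function.update_of_ne (by omega), Function.update_of_ne (by omega)]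
      have hfm' : Function.update (Function.update f m u) (m + 1) w m = u := by
        rw [Function.update_of_ne (by omega), Function.update_self]
      have hfm1' : Function.update (Function.update f m u) (m + 1) w (m + 1) = w := by
        rw [Function.update_self]
      refine ⟨(m + 2, 2 ^ x + 2 ^ m + 2 ^ (m + 1)), ?_, h''.addLine hlS hcl ?_ ?_⟩
      · unfold children
        rw [List.mem_append, List.mem_append]
        exact Or.inr (Or.inr (by simp))
      · intro v hv
        rcases (hadj v).1 hv with rfl | rfl | rfl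
        · exact ⟨x, by omega, hfx'⟩
        · exact ⟨m, by omega, hfm'⟩
        · exact ⟨m + 1, by omega, hfm1'⟩
      · apply mask_eq h'' (by omega) (by omega) (by omega) (by omega) (by omega) (by omega)
        rw [hfx', hfm', hfm1']; exact hN

end R29.CB
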