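import Mathlib
import Pool.Agent.R29.CB.Defs

/-!
Part SPEC of the solution of MP_5e604b_co: a connected cubic bipartite graph with at most six
distinct eigenvalues satisfies the equation `(A²)² = s A² - p I + c J` on the colour class `true`.
(written by helper618)
-/

namespace R29.CB

open Finset Matrix

section

variable {V : Type*} [Fintype V] [DecidableEq V] {G : SimpleGraph V} [DecidableRel G.Adj]
  {col : V → Bool}

omit [DecidableEq V] in
lemma col_adj (h : CubBip G col) {x y : V} (hxy : G.Adj x y) : col y = !(col x) := by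
  have := h.proper x y hxy
  cases hx : col x <;> cases hy : col y <;> simp_all

lemma exists_true (h : CubBip G col) : ∃ x, col x = true := by
  obtain ⟨v⟩ := h.conn.nonempty
  by_cases hv : col v = true
  · exact ⟨v, hv⟩
  · have h3 := h.reg v
    have : (G.neighborFinset v).Nonempty := by
      rw [← Finset.card_pos, h3]; norm_num
    obtain ⟨w, hw⟩ := this
    rw [SimpleGraph.mem_neighborFinset] at hw
    refine ⟨w, ?_⟩
    rw [col_adj h hw]; simpa using hv

lemma three_mem (h : CubBip G col) : (3 : ℝ) ∈ evSet G := by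
  obtain ⟨v, _⟩ := exists_true h
  refine ⟨fun _ => 1, fun h0 => one_ne_zero (congrFun h0 v), fun x => ?_⟩
  simp [h.reg x]

lemma neg_mem (h : CubBip G col) {t : ℝ} (ht : t ∈ evSet G) : -t ∈ evSet G := by
  obtain ⟨f, hf, hx⟩ := ht
  refine ⟨fun x => if col x = true then f x else - f x, ?_, fun x => ?_⟩
  · intro h0
    apply hf
    funext x
    have := congrFun h0 x
    simp only [Pi.zero_apply] at this ⊢
    split_ifs at this with hc
    · exact this
    · linarith
  · have h1 : ∑ y ∈ G.neighborFinset x, (if col y = true then f y else - f y)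
        = ∑ y ∈ G.neighborFinset x, (if col x = true then - f y else f y) := by
      refine Finset.sum_congr rfl fun y hy => ?_
      rw [SimpleGraph.mem_neighborFinset] at hy
      rw [col_adj h hy]
      cases col x <;> simp
    rw [h1]
    by_cases hc : col x = true
    · simp only [hc, if_true, Finset.sum_neg_distrib, hx x]; ring
    · simp only [hc]; simpa using hx x

lemma sq_le_nine (h : CubBip G col) {t : ℝ} (ht : t ∈ evSet G) : t ^ 2 ≤ 9 := by
  obtain ⟨f, hf, hx⟩ := ht
  obtain ⟨v, _⟩ := exists_true h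
  obtain ⟨x, -, hmax⟩ := Finset.exists_max_image Finset.univ (fun x => |f x|) ⟨v, Finset.mem_univ v⟩
  have hpos : 0 < |f x| := by
    rcases lt_or_eq_of_le (abs_nonneg (f x)) with h1 | h1
    · exact h1
    · exfalso
      apply hf
      funext y
      have := hmax y (Finset.mem_univ y)
      rw [← h1] at this
      exact abs_eq_zero.mp (le_antisymm this (abs_nonneg _))
  have h1 : |t| * |f x| ≤ 3 * |f x| := by
    calc |t| * |f x| = |∑ y ∈ G.neighborFinset x, f y| := by rw [hx x, abs_mul]
      _ ≤ ∑ y ∈ G.neighborFinset x, |f y| := Finset.abs_sum_le_sum_abs _ _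
      _ ≤ ∑ _y ∈ G.neighborFinset x, |f x| :=
          Finset.sum_le_sum fun y _ => hmax y (Finset.mem_univ y)
      _ = 3 * |f x| := by rw [Finset.sum_const, h.reg x]; simp
  have h2 : |t| ≤ 3 := le_of_mul_le_mul_right h1 hpos
  nlinarith [abs_nonneg t, sq_abs t]

lemma evSet_subset : evSet G ⊆ {t : ℝ | Module.End.HasEigenvalue (Matrix.toLin' (G.adjMatrix ℝ)) t} := by
  rintro t ⟨f, hf, hx⟩
  rw [Set.mem_ofPred_eq]
  refine Module.End.hasEigenvalue_of_hasEigenvector (x := f) ?_
  rw [Module.End.hasEigenvector_iff]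
  refine ⟨?_, hf⟩
  rw [Module.End.mem_eigenspace_iff]
  funext x
  rw [Matrix.toLin'_apply, SimpleGraph.adjMatrix_mulVec_apply, hx x]
  rfl

lemma evSet_fin : (evSet G).Finite :=
  (Module.End.finite_hasEigenvalue _).subset evSet_subset

/-- three different squares below nine give at least seven eigenvalues -/
lemma no_three (h : CubBip G col) (hE : (evSet G).ncard ≤ 6) {x1 x2 x3 : ℝ}
    (h1 : x1 ∈ evSet G) (h2 : x2 ∈ evSet G) (h3 : x3 ∈ evSet G)
    (n1 : x1 ^ 2 ≠ 9) (n2 : x2 ^ 2 ≠ 9) (n3 : x3 ^ 2 ≠ 9)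
    (d12 : x1 ^ 2 ≠ x2 ^ 2) (d13 : x1 ^ 2 ≠ x3 ^ 2) (d23 : x2 ^ 2 ≠ x3 ^ 2)
    (z1 : x1 ≠ 0) (z2 : x2 ≠ 0) : False := by
  have hsub : (({3, -3, x1, -x1, x2, -x2, x3} : Finset ℝ) : Set ℝ) ⊆ evSet G := by
    intro t ht
    simp only [Finset.coe_insert, Finset.coe_singleton, Set.mem_insert_iff,
      Set.mem_singleton_iff] at ht
    rcases ht with rfl | rfl | rfl | rfl | rfl | rfl | rfl
    · exact three_mem h
    · exact neg_mem h (three_mem h)
    · exact h1
    · exact neg_mem h h1
    · exact h2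
    · exact neg_mem h h2
    · exact h3
  have hcard : ({3, -3, x1, -x1, x2, -x2, x3} : Finset ℝ).card = 7 := by
    have e1 : x1 ≠ -x1 := fun hh => z1 (by linarith)
    have e2 : x2 ≠ -x2 := fun hh => z2 (by linarith)
    have sq (a b : ℝ) (hab : a ^ 2 ≠ b ^ 2) : a ≠ b := fun hh => hab (by rw [hh])
    rw [Finset.card_insert_of_notMem, Finset.card_insert_of_notMem, Finset.card_insert_of_notMem,
      Finset.card_insert_of_notMem, Finset.card_insert_of_notMem, Finset.card_insert_of_notMem,
      Finset.card_singleton]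
    · rw [Finset.mem_singleton]; exact sq _ _ (by simpa using d23)
    · simp only [Finset.mem_insert, Finset.mem_singleton, not_or]
      exact ⟨e2, sq _ _ d23⟩
    · simp only [Finset.mem_insert, Finset.mem_singleton, not_or]
      exact ⟨sq _ _ (by simpa using d12), sq _ _ (by simpa using d12), sq _ _ (by simpa using d13)⟩
    · simp only [Finset.mem_insert, Finset.mem_singleton, not_or]
      exact ⟨e1, sq _ _ d12, sq _ _ (by simpa using d12), sq _ _ d13⟩
    · simp only [Finset.mem_insert, Finset.mem_singleton, not_or]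
      refine ⟨sq _ _ ?_, sq _ _ ?_, sq _ _ ?_, sq _ _ ?_, sq _ _ ?_⟩ <;>
      · intro hh
        first
          | exact n1 (by linarith)
          | exact n2 (by linarith)
          | exact n3 (by linarith)
    · simp only [Finset.mem_insert, Finset.mem_singleton, not_or]
      refine ⟨by norm_num, sq _ _ ?_, sq _ _ ?_, sq _ _ ?_, sq _ _ ?_, sq _ _ ?_⟩ <;>
      · intro hh
        first
          | exact n1 (by linarith)
          | exact n2 (by linarith)
          | exact n3 (by linarith)
  have := Set.ncard_le_ncard hsub evSet_fin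
  rw [Set.ncard_coe_finset, hcard] at this
  omega

lemma exists_t (h : CubBip G col) (hE : (evSet G).ncard ≤ 6) :
    ∃ t1 t2 : ℝ, 0 ≤ t1 ∧ t1 < 9 ∧ 0 ≤ t2 ∧ t2 < 9 ∧
      ∀ x ∈ evSet G, x ^ 2 = 9 ∨ x ^ 2 = t1 ∨ x ^ 2 = t2 := by
  have lt9 : ∀ x ∈ evSet G, x ^ 2 ≠ 9 → x ^ 2 < 9 := fun x hx hn =>
    lt_of_le_of_ne (sq_le_nine h hx) hn
  by_cases c1 : ∀ x ∈ evSet G, x ^ 2 = 9
  · exact ⟨0, 0, le_refl _, by norm_num, le_refl _, by norm_num, fun x hx => Or.inl (c1 x hx)⟩
  push Not at c1
  obtain ⟨x1, m1, n1⟩ := c1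
  by_cases c2 : ∀ x ∈ evSet G, x ^ 2 = 9 ∨ x ^ 2 = x1 ^ 2
  · exact ⟨x1 ^ 2, 0, sq_nonneg _, lt9 _ m1 n1, le_refl _, by norm_num,
      fun x hx => (c2 x hx).imp id Or.inl⟩
  push Not at c2
  obtain ⟨x2, m2, n2, d21⟩ := c2
  by_cases c3 : ∀ x ∈ evSet G, x ^ 2 = 9 ∨ x ^ 2 = x1 ^ 2 ∨ x ^ 2 = x2 ^ 2
  · exact ⟨x1 ^ 2, x2 ^ 2, sq_nonneg _, lt9 _ m1 n1, sq_nonneg _, lt9 _ m2 n2, c3⟩
  push Not at c3
  obtain ⟨x3, m3, n3, d31, d32⟩ := c3
  exfalso
  by_cases z1 : x1 = 0
  · have z2 : x2 ≠ 0 := fun hh => d21 (by rw [hh, z1])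
    have z3 : x3 ≠ 0 := fun hh => d31 (by rw [hh, z1])
    exact no_three h hE m2 m3 m1 n2 n3 n1 (Ne.symm d32) d21 d31 z2 z3
  · by_cases z2 : x2 = 0
    · have z3 : x3 ≠ 0 := fun hh => d32 (by rw [hh, z2])
      exact no_three h hE m1 m3 m2 n1 n3 n2 (Ne.symm d31) (Ne.symm d21) d32 z1 z3
    · exact no_three h hE m1 m2 m3 n1 n2 n3 (Ne.symm d21) (Ne.symm d31) (Ne.symm d32) z1 z2

/-- a function with `A² f = 9 f` is constant on the colour class `true` -/
lemma const_of (h : CubBip G col) (f : V → ℝ)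
    (hf : ∀ x, ∑ a ∈ G.neighborFinset x, ∑ z ∈ G.neighborFinset a, f z = 9 * f x) :
    ∀ x y, col x = true → col y = true → f x = f y := by
  obtain ⟨v, hv⟩ := exists_true h
  obtain ⟨x0, hx0, hmax⟩ := Finset.exists_max_image (Finset.univ.filter (fun x => col x = true)) f
    ⟨v, by simp [hv]⟩
  have hx0c : col x0 = true := by simpa using hx0
  have hmax' : ∀ z, col z = true → f z ≤ f x0 := fun z hz => hmax z (by simp [hz])
  -- nine terms argument
  have nine : ∀ x, col x = true → f x = f x0 → ∀ a ∈ G.neighborFinset x,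
      ∀ z ∈ G.neighborFinset a, f z = f x0 := by
    intro x hx hxe
    have hzc : ∀ a ∈ G.neighborFinset x, ∀ z ∈ G.neighborFinset a, col z = true := by
      intro a ha z hz
      rw [SimpleGraph.mem_neighborFinset] at ha hz
      rw [col_adj h hz, col_adj h ha, hx]; rfl
    have e0 : ∑ a ∈ G.neighborFinset x, ∑ z ∈ G.neighborFinset a, (f x0 - f z) = 0 := by
      simp only [Finset.sum_sub_distrib, hf x, Finset.sum_const, h.reg, hxe]
      simp; ring
    have nn : ∀ a ∈ G.neighborFinset x, 0 ≤ ∑ z ∈ G.neighborFinset a, (f x0 - f z) :=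
      fun a ha => Finset.sum_nonneg fun z hz => sub_nonneg.mpr (hmax' z (hzc a ha z hz))
    have e1 := (Finset.sum_eq_zero_iff_of_nonneg nn).mp e0
    intro a ha z hz
    have e2 := (Finset.sum_eq_zero_iff_of_nonneg
      (fun z hz => sub_nonneg.mpr (hmax' z (hzc a ha z hz)))).mp (e1 a ha) z hz
    linarith
  have key : ∀ w, G.Reachable x0 w →
      (col w = true → f w = f x0) ∧ (col w = false → ∀ z ∈ G.neighborFinset w, f z = f x0) := by
    intro w hw
    rw [SimpleGraph.reachable_iff_reflTransGen] at hw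
    induction hw with
    | refl => exact ⟨fun _ => rfl, fun hc => by simp [hx0c] at hc⟩
    | @tail b c _ hbc ih =>
      constructor
      · intro hc
        have hb : col b = false := by
          have := col_adj h hbc.symm
          rw [hc] at this; simpa using this
        exact ih.2 hb c (by rw [SimpleGraph.mem_neighborFinset]; exact hbc)
      · intro hc
        have hb : col b = true := by
          have := col_adj h hbc.symm
          rw [hc] at this; simpa using this
        exact nine b hb (ih.1 hb) c (by rw [SimpleGraph.mem_neighborFinset]; exact hbc)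
  intro x y hx hy
  rw [(key x (h.conn.preconnected x0 x)).1 hx, (key y (h.conn.preconnected x0 y)).1 hy]

lemma K_apply (x y : V) : (G.adjMatrix ℝ * G.adjMatrix ℝ) x y = (lam G x y : ℝ) := by
  rw [SimpleGraph.adjMatrix_mul_apply, lam]
  rw [Finset.card_eq_sum_ones, Nat.cast_sum]
  rw [← Finset.sum_filter_add_sum_filter_not (G.neighborFinset x) (fun u => G.Adj u y)]
  have h1 : ∑ u ∈ G.neighborFinset x with ¬ G.Adj u y, G.adjMatrix ℝ u y = 0 := by
    refine Finset.sum_eq_zero fun u hu => ?_
    simp only [Finset.mem_filter] at hu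
    simp [SimpleGraph.adjMatrix_apply, hu.2]
  rw [h1, add_zero]
  have h2 : (G.neighborFinset x).filter (fun u => G.Adj u y) =
      G.neighborFinset x ∩ G.neighborFinset y := by
    ext u
    simp [SimpleGraph.adj_comm]
  rw [h2]
  refine Finset.sum_congr rfl fun u hu => ?_
  have : G.Adj u y := by
    rw [← h2] at hu
    exact (Finset.mem_filter.mp hu).2
  simp [SimpleGraph.adjMatrix_apply, this]

lemma K2_apply (x y : V) :
    (G.adjMatrix ℝ * G.adjMatrix ℝ * (G.adjMatrix ℝ * G.adjMatrix ℝ)) x y = (W4 G x y : ℝ) := by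
  have e : G.adjMatrix ℝ * G.adjMatrix ℝ * (G.adjMatrix ℝ * G.adjMatrix ℝ) =
      G.adjMatrix ℝ * ((G.adjMatrix ℝ * G.adjMatrix ℝ) * G.adjMatrix ℝ) := by
    simp only [Matrix.mul_assoc]
  rw [e, SimpleGraph.adjMatrix_mul_apply, W4, Nat.cast_sum]
  refine Finset.sum_congr rfl fun a _ => ?_
  rw [SimpleGraph.mul_adjMatrix_apply, Nat.cast_sum]
  exact Finset.sum_congr rfl fun b _ => K_apply a b

end

theorem spec {V : Type*} [Fintype V] [DecidableEq V] (G : SimpleGraph V) [DecidableRel G.Adj]
    (col : V → Bool) (h : CubBip G col) (hE : (evSet G).ncard ≤ 6) :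
    ∃ s p c : ℝ, 0 ≤ s ∧ 0 ≤ p ∧ 4 * p ≤ s ^ 2 ∧ 0 < c ∧ Eqn G col s p c ∧
      c * ((Finset.univ.filter (fun x => col x = true)).card : ℝ) = 81 - 9 * s + p := by
  obtain ⟨t1, t2, t1n, t19, t2n, t29, hev⟩ := exists_t h hE
  obtain ⟨v0, hv0⟩ := exists_true h
  set A : Matrix V V ℝ := G.adjMatrix ℝ with hA
  have hsym : Aᵀ = A := (G.isSymm_adjMatrix : (G.adjMatrix ℝ).IsSymm)
  have hherm : A.IsHermitian := by
    rw [Matrix.IsHermitian, Matrix.conjTranspose_eq_transpose_of_trivial]; exact hsym
  set K : Matrix V V ℝ := A * A with hK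
  set P : Matrix V V ℝ := K * K - (t1 + t2) • K + (t1 * t2) • (1 : Matrix V V ℝ) with hP
  -- the operator equation
  have hzero : ∀ f : V → ℝ, K *ᵥ (P *ᵥ f) = (9 : ℝ) • (P *ᵥ f) := by
    have hbasis : ∀ j, K *ᵥ (P *ᵥ ⇑(hherm.eigenvectorBasis j)) =
        (9 : ℝ) • (P *ᵥ ⇑(hherm.eigenvectorBasis j)) := by
      intro j
      set u : V → ℝ := ⇑(hherm.eigenvectorBasis j) with hu
      set l : ℝ := hherm.eigenvalues j with hl
      have hAu : A *ᵥ u = l • u := hherm.mulVec_eigenvectorBasis j
      have hKu : K *ᵥ u = l ^ 2 • u := by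
        rw [hK, ← Matrix.mulVec_mulVec, hAu, Matrix.mulVec_smul, hAu, smul_smul, pow_two]
      have hKKu : (K * K) *ᵥ u = l ^ 4 • u := by
        rw [← Matrix.mulVec_mulVec, hKu, Matrix.mulVec_smul, hKu, smul_smul]
        congr 1; ring
      have hPu : P *ᵥ u = ((l ^ 2 - t1) * (l ^ 2 - t2)) • u := by
        rw [hP, Matrix.add_mulVec, Matrix.sub_mulVec, hKKu, Matrix.smul_mulVec,
          hKu, Matrix.smul_mulVec, Matrix.one_mulVec, smul_smul, ← sub_smul, ← add_smul]
        congr 1; ring
      have hune : u ≠ 0 := by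
        intro h0
        have := hherm.eigenvectorBasis.toBasis.ne_zero j
        apply this
        rw [OrthonormalBasis.coe_toBasis]
        ext x
        exact congrFun h0 x
      have hmem : l ∈ evSet G := by
        refine ⟨u, hune, fun x => ?_⟩
        have := congrFun hAu x
        rw [hA, SimpleGraph.adjMatrix_mulVec_apply] at this
        simpa using this
      rw [hPu, Matrix.mulVec_smul, hKu, smul_smul, smul_smul]
      congr 1
      rcases hev l hmem with e | e | e
      · rw [e]; ring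
      · rw [e]; ring
      · rw [e]; ring
    intro f
    -- expand in the basis
    have hexp := hherm.eigenvectorBasis.sum_repr (WithLp.toLp 2 f)
    have hf : f = ∑ j, (hherm.eigenvectorBasis.repr (WithLp.toLp 2 f)).ofLp j •
        (⇑(hherm.eigenvectorBasis j) : V → ℝ) := by
      have h1 := congrArg (WithLp.ofLp) hexp
      simpa using h1.symm
    have hK' : ∀ M : Matrix V V ℝ, M *ᵥ f =
        ∑ j, (hherm.eigenvectorBasis.repr (WithLp.toLp 2 f)).ofLp j •
        (M *ᵥ (⇑(hherm.eigenvectorBasis j) : V → ℝ)) := by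
      intro M
      conv_lhs => rw [hf]
      rw [Matrix.mulVec_sum]
      exact Finset.sum_congr rfl fun j _ => Matrix.mulVec_smul _ _ _
    rw [hK' P, Matrix.mulVec_sum, Finset.smul_sum]
    refine Finset.sum_congr rfl fun j _ => ?_
    rw [Matrix.mulVec_smul, hbasis j, smul_comm]
  -- the columns of `P`
  have hKsym : Kᵀ = K := by rw [hK, Matrix.transpose_mul, hsym]
  have hPsym : ∀ x y, P x y = P y x := by
    intro x y
    have : Pᵀ = P := by
      rw [hP, Matrix.transpose_add, Matrix.transpose_sub, Matrix.transpose_mul,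
        Matrix.transpose_smul, Matrix.transpose_smul, Matrix.transpose_one, hKsym]
    exact congrFun (congrFun this y) x
  have hcol : ∀ y x x', col x = true → col x' = true → P x y = P x' y := by
    intro y
    have h1 := hzero (Pi.single y 1)
    rw [Matrix.mulVec_single_one] at h1
    have h2 := const_of h (P.col y) (fun x => by
      have h3 := congrFun h1 x
      rw [hK, ← Matrix.mulVec_mulVec, hA, SimpleGraph.adjMatrix_mulVec_apply] at h3
      simp only [SimpleGraph.adjMatrix_mulVec_apply] at h3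
      simpa using h3)
    intro x x' hx hx'
    exact h2 x x' hx hx'
  have hPc : ∀ x y, col x = true → col y = true → P x y = P v0 v0 := by
    intro x y hx hy
    rw [hcol y x v0 hx hv0, hPsym v0 y, hcol v0 y v0 hy hv0]
  have hPentry : ∀ x y, P x y = W4 G x y - (t1 + t2) * lam G x y +
      (if x = y then t1 * t2 else 0) := by
    intro x y
    rw [hP, Matrix.add_apply, Matrix.sub_apply, Matrix.smul_apply, Matrix.smul_apply,
      Matrix.one_apply, hK, K2_apply, K_apply]
    simp
  -- the sum of a row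
  set chi : V → ℝ := fun x => if col x = true then 1 else 0 with hchi
  have hKchi : K *ᵥ chi = (9 : ℝ) • chi := by
    funext x
    rw [hK, ← Matrix.mulVec_mulVec, hA, SimpleGraph.adjMatrix_mulVec_apply]
    simp only [SimpleGraph.adjMatrix_mulVec_apply]
    have : ∑ a ∈ G.neighborFinset x, ∑ z ∈ G.neighborFinset a, chi z =
        ∑ a ∈ G.neighborFinset x, ∑ _z ∈ G.neighborFinset a, chi x := by
      refine Finset.sum_congr rfl fun a ha => Finset.sum_congr rfl fun z hz => ?_
      rw [SimpleGraph.mem_neighborFinset] at ha hz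
      have : col z = col x := by rw [col_adj h hz, col_adj h ha]; simp
      simp only [hchi, this]
    rw [this]
    simp only [Finset.sum_const, h.reg]
    simp; ring
  have hPchi : P *ᵥ chi = (81 - 9 * (t1 + t2) + t1 * t2) • chi := by
    rw [hP, Matrix.add_mulVec, Matrix.sub_mulVec, ← Matrix.mulVec_mulVec, hKchi,
      Matrix.mulVec_smul, hKchi, Matrix.smul_mulVec, hKchi, Matrix.smul_mulVec,
      Matrix.one_mulVec, smul_smul, smul_smul, ← sub_smul, ← add_smul]
    congr 1; ring
  have hsum : P v0 v0 * ((Finset.univ.filter (fun x => col x = true)).card : ℝ) =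
      81 - 9 * (t1 + t2) + t1 * t2 := by
    have h1 := congrFun hPchi v0
    rw [Matrix.mulVec, dotProduct] at h1
    have h2 : ∑ x, P v0 x * chi x = ∑ x ∈ Finset.univ.filter (fun x => col x = true), P v0 v0 := by
      rw [Finset.sum_filter]
      refine Finset.sum_congr rfl fun x _ => ?_
      by_cases hx : col x = true
      · simp only [hchi, hx, if_true, mul_one]; exact hPc v0 x hv0 hx
      · simp [hchi, hx]
    rw [h2, Finset.sum_const, nsmul_eq_mul, mul_comm] at h1
    rw [h1]
    simp [hchi, hv0]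
  have hcpos : 0 < P v0 v0 := by
    have h1 : 0 < 81 - 9 * (t1 + t2) + t1 * t2 := by
      have : 0 < (9 - t1) * (9 - t2) := mul_pos (by linarith) (by linarith)
      nlinarith
    rw [← hsum] at h1
    by_contra hneg
    push Not at hneg
    have := mul_nonpos_of_nonpos_of_nonneg hneg
      (Nat.cast_nonneg (α := ℝ) (Finset.univ.filter (fun x => col x = true)).card)
    linarith
  refine ⟨t1 + t2, t1 * t2, P v0 v0, by positivity, by positivity, ?_, hcpos, ?_, hsum⟩
  · nlinarith [sq_nonneg (t1 - t2)]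
  · intro x y hx hy
    have h1 := hPentry x y
    rw [hPc x y hx hy] at h1
    rw [h1]
    split_ifs <;> ring

end R29.CB
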