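import Pool.Agent.R29.CB.Tab.T00
import Pool.Agent.R29.CB.Tab.T01
import Pool.Agent.R29.CB.Tab.T02
import Pool.Agent.R29.CB.Tab.T03
import Pool.Agent.R29.CB.Tab.T04
import Pool.Agent.R29.CB.Tab.T05
import Pool.Agent.R29.CB.Tab.T06
import Pool.Agent.R29.CB.Tab.T07
set_option linter.all false

/-! All theories (generated). -/

namespace R29.CB

/-- all full theories -/
def thFull : List Th := [
  ⟨6, 1, 12, 15, true⟩,
  ⟨7, 2, 9, 15, true⟩,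
  ⟨9, 3, 6, 15, true⟩,
  ⟨7, 3, 8, 15, true⟩,
  ⟨15, 4, 3, 15, true⟩,
  ⟨8, 4, 6, 15, true⟩,
  ⟨7, 4, 7, 15, true⟩,
  ⟨37, 5, 1, 15, true⟩,
  ⟨19, 5, 2, 15, true⟩,
  ⟨13, 5, 3, 15, true⟩,
  ⟨10, 5, 4, 15, true⟩,
  ⟨7, 5, 6, 15, true⟩,
  ⟨31, 6, 1, 15, true⟩,
  ⟨16, 6, 2, 15, true⟩,
  ⟨11, 6, 3, 15, true⟩,
  ⟨7, 6, 5, 15, true⟩,
  ⟨6, 6, 6, 15, true⟩,
  ⟨25, 7, 1, 15, true⟩,
  ⟨13, 7, 2, 15, true⟩,
  ⟨9, 7, 3, 15, true⟩,
  ⟨7, 7, 4, 15, true⟩,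
  ⟨5, 7, 6, 15, true⟩,
  ⟨19, 8, 1, 15, true⟩,
  ⟨10, 8, 2, 15, true⟩,
  ⟨7, 8, 3, 15, true⟩,
  ⟨4, 8, 6, 15, true⟩,
  ⟨13, 9, 1, 15, true⟩,
  ⟨7, 9, 2, 15, true⟩,
  ⟨5, 9, 3, 15, true⟩,
  ⟨4, 9, 4, 15, true⟩,
  ⟨3, 9, 6, 15, true⟩,
  ⟨7, 10, 1, 15, true⟩,
  ⟨4, 10, 2, 15, true⟩,
  ⟨3, 10, 3, 15, true⟩,
  ⟨2, 10, 6, 15, true⟩,
  ⟨9, 4, 5, 17, true⟩,
  ⟨6, 4, 8, 17, true⟩,
  ⟨18, 5, 2, 17, true⟩,
  ⟨29, 6, 1, 17, true⟩,
  ⟨15, 6, 2, 17, true⟩,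
  ⟨8, 6, 4, 17, true⟩,
  ⟨5, 6, 7, 17, true⟩,
  ⟨23, 7, 1, 17, true⟩,
  ⟨12, 7, 2, 17, true⟩,
  ⟨17, 8, 1, 17, true⟩,
  ⟨9, 8, 2, 17, true⟩,
  ⟨5, 8, 4, 17, true⟩,
  ⟨3, 8, 8, 17, true⟩,
  ⟨11, 9, 1, 17, true⟩,
  ⟨6, 9, 2, 17, true⟩,
  ⟨3, 9, 5, 17, true⟩,
  ⟨2, 9, 10, 17, true⟩,
  ⟨5, 10, 1, 17, true⟩,
  ⟨3, 10, 2, 17, true⟩,
  ⟨2, 10, 4, 17, true⟩,
  ⟨5, 3, 11, 19, true⟩,
  ⟨9, 5, 4, 19, true⟩,
  ⟨5, 5, 8, 19, true⟩,
  ⟨27, 6, 1, 19, true⟩,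
  ⟨14, 6, 2, 19, true⟩,
  ⟨21, 7, 1, 19, true⟩,
  ⟨11, 7, 2, 19, true⟩,
  ⟨6, 7, 4, 19, true⟩,
  ⟨5, 7, 5, 19, true⟩,
  ⟨3, 7, 10, 19, true⟩,
  ⟨15, 8, 1, 19, true⟩,
  ⟨8, 8, 2, 19, true⟩,
  ⟨3, 8, 7, 19, true⟩,
  ⟨9, 9, 1, 19, true⟩,
  ⟨5, 9, 2, 19, true⟩,
  ⟨3, 9, 4, 19, true⟩,
  ⟨2, 9, 8, 19, true⟩,
  ⟨3, 10, 1, 19, true⟩,
  ⟨2, 10, 2, 19, true⟩]

/-- all diagonal theories -/
def thDiag : List Th := [
  ⟨0, 0, 0, 16, false⟩,
  ⟨0, 0, 0, 18, false⟩,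
  ⟨0, 0, 0, 20, false⟩,
  ⟨0, 0, 0, 21, false⟩,
  ⟨0, 0, 0, 22, false⟩,
  ⟨0, 0, 0, 23, false⟩,
  ⟨0, 0, 0, 24, false⟩,
  ⟨0, 0, 0, 25, false⟩,
  ⟨0, 0, 0, 26, false⟩,
  ⟨0, 0, 0, 27, false⟩]

theorem good_thFull.{u} : ∀ θ ∈ thFull, Good.{u} θ := by
  intro θ h
  simp only [thFull, List.mem_cons, List.not_mem_nil, or_false] at h
  rcases h with rfl | rfl | rfl | rfl | rfl | rfl | rfl | rfl | rfl | rfl | rfl | rfl | rfl | rfl | rfl | rfl | rfl | rfl | rfl | rfl | rfl | rfl | rfl | rfl | rfl | rfl | rfl | rfl | rfl | rfl | rfl | rfl | rfl | rfl | rfl | rfl | rfl | rfl | rfl | rfl | rfl | rfl | rfl | rfl | rfl | rfl | rfl | rfl | rfl | rfl | rfl | rfl | rfl | rfl | rfl | rfl | rfl | rfl | rfl | rfl | rfl | rfl | rfl | rfl | rfl | rfl | rfl | rfl | rfl | rfl | rfl | rfl | rfl | rfl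
  · exact good10
  · exact good11
  · exact good12
  · exact good13
  · exact good14
  · exact good15
  · exact good16
  · exact good17
  · exact good18
  · exact good19
  · exact good20
  · exact good21
  · exact good22
  · exact good23
  · exact good24
  · exact good25
  · exact good26
  · exact good27
  · exact good28
  · exact good29
  · exact good30
  · exact good31
  · exact good32
  · exact good33
  · exact good34
  · exact good35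
  · exact good36
  · exact good37
  · exact good38
  · exact good39
  · exact good40
  · exact good41
  · exact good42
  · exact good43
  · exact good44
  · exact good45
  · exact good46
  · exact good47
  · exact good48
  · exact good49
  · exact good50
  · exact good51
  · exact good52
  · exact good53
  · exact good54
  · exact good55
  · exact good56
  · exact good57
  · exact good58
  · exact good59
  · exact good60
  · exact good61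
  · exact good62
  · exact good63
  · exact good64
  · exact good65
  · exact good66
  · exact good67
  · exact good68
  · exact good69
  · exact good70
  · exact good71
  · exact good72
  · exact good73
  · exact good74
  · exact good75
  · exact good76
  · exact good77
  · exact good78
  · exact good79
  · exact good80
  · exact good81
  · exact good82
  · exact good83

theorem good_thDiag.{u} : ∀ θ ∈ thDiag, Good.{u} θ := by
  intro θ h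
  simp only [thDiag, List.mem_cons, List.not_mem_nil, or_false] at h
  rcases h with rfl | rfl | rfl | rfl | rfl | rfl | rfl | rfl | rfl | rfl
  · exact good0
  · exact good1
  · exact good2
  · exact good3
  · exact good4
  · exact good5
  · exact good6
  · exact good7
  · exact good8
  · exact good9

end R29.CB
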