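import Pool.Agent.R29.CB.Defs

/-!
Cubic bipartite graphs with five or six distinct eigenvalues (MP_5e604b_co): the spectrum is the
set of eigenvalues with explicit eigenvectors, isomorphism invariance, connected components.
-/

namespace R29.CB

open Finset

universe u v

/-- membership in `evSet`, with the neighbours written as a filter for any decidability
instance -/
theorem mem_evSet_filter {V : Type u} [Fintype V] (G : SimpleGraph V) [DecidableRel G.Adj]
    (t : ℝ) :
    t ∈ evSet G ↔ ∃ f : V → ℝ, f ≠ 0 ∧
      ∀ x, ∑ y ∈ Finset.univ.filter (fun y => G.Adj x y), f y = t * f x := by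
  unfold evSet
  simp only [Set.mem_ofPred_eq]
  have key : ∀ x, G.neighborFinset x = Finset.univ.filter (fun y => G.Adj x y) := by
    intro x
    ext y
    simp
  simp only [key]

/-- `evSet` does not depend on the instances -/
theorem evSet_inst {V : Type u} (G : SimpleGraph V) (i1 i2 : Fintype V)
    (d1 d2 : DecidableRel G.Adj) : @evSet V i1 G d1 = @evSet V i2 G d2 := by
  have h1 : i1 = i2 := Subsingleton.elim _ _
  have h2 : d1 = d2 := Subsingleton.elim _ _
  subst h1
  subst h2
  rfl

/-- the spectrum of the adjacency matrix -/
theorem spectrum_eq {V : Type u} [Fintype V] [DecidableEq V] (G : SimpleGraph V)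
    [DecidableRel G.Adj] : spectrum ℝ (G.adjMatrix ℝ) = evSet G := by
  ext t
  rw [← Matrix.spectrum_toLin', ← Module.End.hasEigenvalue_iff_mem_spectrum]
  constructor
  · intro h
    obtain ⟨f, hf⟩ := h.exists_hasEigenvector
    refine ⟨f, hf.2, fun x => ?_⟩
    have h1 := hf.apply_eq_smul
    have h2 := congrFun h1 x
    rw [Matrix.toLin'_apply, SimpleGraph.adjMatrix_mulVec_apply] at h2
    simpa using h2
  · rintro ⟨f, hf, h⟩
    apply Module.End.hasEigenvalue_of_hasEigenvector (x := f)
    refine ⟨?_, hf⟩
    rw [Module.End.mem_eigenspace_iff]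
    funext x
    rw [Matrix.toLin'_apply, SimpleGraph.adjMatrix_mulVec_apply, h x]
    simp

theorem evSet_finite {V : Type u} [Fintype V] (G : SimpleGraph V) [DecidableRel G.Adj] :
    (evSet G).Finite := by
  classical
  rw [← spectrum_eq]
  exact Matrix.finite_spectrum _

/-- isomorphism invariance -/
theorem evSet_iso_subset {V : Type u} {W : Type v} [Fintype V] [Fintype W]
    (G : SimpleGraph V) [DecidableRel G.Adj] (H : SimpleGraph W) [DecidableRel H.Adj]
    (e : G ≃g H) : evSet G ⊆ evSet H := by
  intro t ht
  rw [mem_evSet_filter] at ht ⊢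
  obtain ⟨f, hf, h⟩ := ht
  refine ⟨fun w => f (e.symm w), ?_, ?_⟩
  · intro h0
    apply hf
    funext x
    have := congrFun h0 (e x)
    simpa using this
  · intro w
    rw [← h (e.symm w)]
    apply Finset.sum_bij' (i := fun y _ => e.symm y) (j := fun y _ => e y)
    · intro y hy
      simp only [mem_filter, mem_univ, true_and] at hy ⊢
      exact (e.symm.map_adj_iff).2 hy
    · intro y hy
      simp only [mem_filter, mem_univ, true_and] at hy ⊢
      have := (e.map_adj_iff).2 hy
      simpa using this
    · intro y _
      simp
    · intro y _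
      simp
    · intro y _
      rfl

theorem evSet_iso {V : Type u} {W : Type v} [Fintype V] [Fintype W]
    (G : SimpleGraph V) [DecidableRel G.Adj] (H : SimpleGraph W) [DecidableRel H.Adj]
    (e : G ≃g H) : evSet G = evSet H :=
  Set.Subset.antisymm (evSet_iso_subset G H e) (evSet_iso_subset H G e.symm)

/-- components, for arbitrary instances on the components -/
theorem evSet_components' {V : Type u} [Fintype V] (G : SimpleGraph V) [DecidableRel G.Adj]
    [i1 : ∀ c : G.ConnectedComponent, Fintype c]
    [i2 : ∀ c : G.ConnectedComponent, DecidableRel c.toSimpleGraph.Adj] :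
    evSet G = ⋃ c : G.ConnectedComponent, evSet c.toSimpleGraph := by
  classical
  ext t
  rw [Set.mem_iUnion]
  constructor
  · intro ht
    rw [mem_evSet_filter] at ht
    obtain ⟨f, hf, h⟩ := ht
    obtain ⟨v, hv⟩ : ∃ v, f v ≠ 0 := by
      by_contra hcon
      push Not at hcon
      exact hf (funext hcon)
    refine ⟨G.connectedComponentMk v, ?_⟩
    rw [mem_evSet_filter]
    refine ⟨fun x => f x.1, ?_, ?_⟩
    · intro h0
      exact hv (congrFun h0 ⟨v, rfl⟩)
    · intro x
      rw [← h x.1]
      apply Finset.sum_bij (i := fun y _ => y.1)
      · intro y hy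
        simp only [mem_filter, mem_univ, true_and] at hy ⊢
        exact hy
      · intro a _ b _ hab
        exact Subtype.ext hab
      · intro b hb
        simp only [mem_filter, mem_univ, true_and] at hb
        have hx : G.connectedComponentMk x.1 = G.connectedComponentMk v := x.2
        have hbm : G.connectedComponentMk b = G.connectedComponentMk v := by
          rw [← hx]
          exact (SimpleGraph.ConnectedComponent.sound hb.symm.reachable)
        refine ⟨⟨b, hbm⟩, ?_, rfl⟩
        simp only [mem_filter, mem_univ, true_and]
        exact hb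
      · intro a _
        rfl
  · rintro ⟨c, hc⟩
    rw [mem_evSet_filter] at hc
    obtain ⟨f, hf, h⟩ := hc
    rw [mem_evSet_filter]
    refine ⟨fun x => if hx : x ∈ c.supp then f ⟨x, hx⟩ else 0, ?_, ?_⟩
    · intro h0
      apply hf
      funext x
      have h1 := congrFun h0 x.1
      have h2 : x.1 ∈ c.supp := x.2
      simp only [h2, dif_pos] at h1
      exact h1
    · intro x
      by_cases hx : x ∈ c.supp
      · simp only [hx, dif_pos]
        rw [← h ⟨x, hx⟩]
        symm
        apply Finset.sum_bij (i := fun y _ => y.1)
        · intro y hy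
          simp only [mem_filter, mem_univ, true_and] at hy ⊢
          exact hy
        · intro a _ b _ hab
          exact Subtype.ext hab
        · intro b hb
          simp only [mem_filter, mem_univ, true_and] at hb
          have hbm : b ∈ c.supp := (SimpleGraph.ConnectedComponent.mem_supp_congr_adj c hb).1 hx
          refine ⟨⟨b, hbm⟩, ?_, rfl⟩
          simp only [mem_filter, mem_univ, true_and]
          exact hb
        · intro a _
          have h2 : a.1 ∈ c.supp := a.2
          simp only [h2, dif_pos]
      · simp only [hx, dif_neg, not_false_iff, mul_zero]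
        apply Finset.sum_eq_zero
        intro y hy
        simp only [mem_filter, mem_univ, true_and] at hy
        have hym : y ∉ c.supp := fun hy' =>
          hx ((SimpleGraph.ConnectedComponent.mem_supp_congr_adj c hy).2 hy')
        simp only [hym, dif_neg, not_false_iff]

/-- components, classical instances -/
theorem evSet_components {V : Type u} [Fintype V] (G : SimpleGraph V) [DecidableRel G.Adj] :
    evSet G = ⋃ c : G.ConnectedComponent,
      @evSet _ (Fintype.ofFinite _) c.toSimpleGraph (Classical.decRel _) := by
  have i1 : ∀ c : G.ConnectedComponent, Fintype c := fun c => Fintype.ofFinite _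
  have i2 : ∀ c : G.ConnectedComponent, DecidableRel c.toSimpleGraph.Adj :=
    fun c => Classical.decRel _
  rw [evSet_components' G]
  apply Set.iUnion_congr
  intro c
  exact evSet_inst _ _ _ _ _

/-- degrees in a component -/
theorem card_neighbor_component {V : Type u} [Fintype V] (G : SimpleGraph V)
    [DecidableRel G.Adj] (c : G.ConnectedComponent) [Fintype c]
    [DecidableRel c.toSimpleGraph.Adj] (x : c) :
    (c.toSimpleGraph.neighborFinset x).card = (G.neighborFinset x.1).card := by
  classical
  apply Finset.card_bij (i := fun y _ => y.1)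
  · intro y hy
    rw [SimpleGraph.mem_neighborFinset] at hy ⊢
    exact hy
  · intro a _ b _ hab
    exact Subtype.ext hab
  · intro b hb
    rw [SimpleGraph.mem_neighborFinset] at hb
    have hbm : b ∈ c.supp := (SimpleGraph.ConnectedComponent.mem_supp_congr_adj c hb).1 x.2
    refine ⟨⟨b, hbm⟩, ?_, rfl⟩
    rw [SimpleGraph.mem_neighborFinset]
    exact hb

/-- components of cubic bipartite graphs, arbitrary instances -/
theorem component_cubBip' {V : Type u} [Fintype V] (G : SimpleGraph V) [DecidableRel G.Adj]
    (h3 : G.IsRegularOfDegree 3) (hb : G.Colorable 2) (c : G.ConnectedComponent) [Fintype c]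
    [DecidableRel c.toSimpleGraph.Adj] : ∃ col : c → Bool, CubBip c.toSimpleGraph col := by
  obtain ⟨C⟩ := hb
  refine ⟨fun x => decide (C x.1 = 0), ?_⟩
  constructor
  · intro x
    rw [card_neighbor_component]
    exact h3 x.1
  · intro x y hxy heq
    have hadj : G.Adj x.1 y.1 := hxy
    have hne : C x.1 ≠ C y.1 := C.valid hadj
    have h1 : (C x.1 = 0) ↔ (C y.1 = 0) := by
      simpa using heq
    generalize C x.1 = a at hne h1
    generalize C y.1 = b at hne h1
    revert a b
    decide
  · exact c.connected_toSimpleGraph

/-- components of cubic bipartite graphs, classical instances -/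
theorem component_cubBip {V : Type u} [Fintype V] (G : SimpleGraph V) [DecidableRel G.Adj]
    (h3 : G.IsRegularOfDegree 3) (hb : G.Colorable 2) (c : G.ConnectedComponent) :
    ∃ col : c → Bool,
      @CubBip _ (Fintype.ofFinite _) c.toSimpleGraph (Classical.decRel _) col := by
  letI i1 : Fintype c := Fintype.ofFinite _
  letI i2 : DecidableRel c.toSimpleGraph.Adj := Classical.decRel _
  exact component_cubBip' G h3 hb c

end R29.CB
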